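import Pool.Agent.Lib.MP_ba1bba_al.LR.Spec

/-!
# MP_ba1bba_al: the first coefficients of the growth series of B(p, p m) in closed form: definitions

Section 1 is used in the statement of the main theorem, the rest only in its proof.
-/

open scoped ENNReal

namespace Pool.Agent.Lib.MPba1bba.LC

open Pool.Agent.Lib.MPba1bba Pool.Agent.Lib.MPba1bba.AS Pool.Agent.Lib.MPba1bba.LR PowerSeries

/-! ## 1. The statement: power series with integer coefficients -/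

/-- The inverse of a power series with constant coefficient `1`. -/
noncomputable def iv (f : PowerSeries ℤ) : PowerSeries ℤ := PowerSeries.invOfUnit f 1

/-- `X + X² + ... + Xⁿ`. -/
noncomputable def gz (n : ℕ) : PowerSeries ℤ := ∑ i ∈ Finset.range n, X ^ (i + 1)

/-- `c_t = (X + ... + X^t) + (X + ... + X^(p-1-t))`, `0 ≤ t ≤ p - 1`. -/
noncomputable def cz (p t : ℕ) : PowerSeries ℤ := gz t + gz (p - 1 - t)

/-- `ℓ = (1 + X^p)/(1 - X^p)`. -/
noncomputable def Lz (p : ℕ) : PowerSeries ℤ := (1 + X ^ p) * iv (1 - X ^ p)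

/-- `u_t = 1/(1 - e c_t)`. -/
noncomputable def uz (p t : ℕ) (e : PowerSeries ℤ) : PowerSeries ℤ := iv (1 - e * cz p t)

/-- `W(e) = ∑_{0 ≤ t < p-1} X^(p-1-t) u_t u_{t+1}`. -/
noncomputable def Wz (p : ℕ) (e : PowerSeries ℤ) : PowerSeries ℤ :=
  ∑ t ∈ Finset.range (p - 1), X ^ (p - 1 - t) * uz p t e * uz p (t + 1) e

/-- `M(e) = ℓ (1 + c_0) u_0 + (1 + e) W(e)`. -/
noncomputable def Mz (p : ℕ) (e : PowerSeries ℤ) : PowerSeries ℤ :=
  Lz p * (1 + cz p 0) * uz p 0 e + (1 + e) * Wz p e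

/-- `N(e) = ℓ c_0 u_0 + W(e)`. -/
noncomputable def Nz (p : ℕ) (e : PowerSeries ℤ) : PowerSeries ℤ :=
  Lz p * cz p 0 * uz p 0 e + Wz p e

/-- `g = (1 + e)/(1 - X M(e))`. -/
noncomputable def Gz (p : ℕ) (e : PowerSeries ℤ) : PowerSeries ℤ :=
  (1 + e) * iv (1 - X * Mz p e)

/-- `S = (1 - X²)/(1 - X² ℓ) · ((2 g - 1 - e) ℓ + g² N(e))`. -/
noncomputable def Sz (p : ℕ) (e : PowerSeries ℤ) : PowerSeries ℤ :=
  (1 - X ^ 2) * iv (1 - X ^ 2 * Lz p) *
    ((2 * Gz p e - (1 + e)) * Lz p + Gz p e ^ 2 * Nz p e)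

/-- The main theorem. For every `p ≥ 2` the equation `e + X² = X² (1 + e) M(e)` has exactly one
solution `e` in `ℤ⟦X⟧`, the series `S` is algebraic over `ℤ[X]`, and for all `m ≥ 2` and all `n` with
`2 n ≤ p (m - 1)` the number of elements of length `n` of `B(p, p m)` is the coefficient of `Xⁿ` in
`S`. -/
def MainLC : Prop :=
  ∀ p : ℕ, 2 ≤ p → ∃ e : PowerSeries ℤ, e + X ^ 2 = X ^ 2 * ((1 + e) * Mz p e) ∧
    (∀ e' : PowerSeries ℤ, e' + X ^ 2 = X ^ 2 * ((1 + e') * Mz p e') → e' = e) ∧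
    IsAlgebraic (Polynomial ℤ) (Sz p e) ∧
    ∀ m n : ℕ, 2 ≤ m → 2 * n ≤ p * (m - 1) →
      (sphere p (p * m) n : ℤ) = PowerSeries.coeff n (Sz p e)

/-! ## 2. Auxiliary definitions (proof only) -/

/-- `(1 - X²)/(1 - X² ℓ)`. -/
noncomputable def Dz (p : ℕ) : PowerSeries ℤ := (1 - X ^ 2) * iv (1 - X ^ 2 * Lz p)

/-- `ρ(s) = ∑_{x ∈ s} (p - |x|)`. -/
def rh (p : ℕ) (s : Multiset ℤ) : ℕ := (s.map fun x : ℤ => p - x.natAbs).sum

/-- The coefficient of `zⁿ [s]` vanishes unless `ρ(s) ≤ 2 n`. -/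
def OrdR (p : ℕ) (F : Ser) : Prop := ∀ (n : ℕ) (s : Multiset ℤ),
  (PowerSeries.coeff n F).coeff s ≠ 0 → rh p s ≤ 2 * n

/-- The number of `k ∈ ℤ` with `b_s(k) = n`. -/
noncomputable def lco (p : ℕ) (s : Multiset ℤ) (n : ℕ) : ℕ := Nat.card {k : ℤ // bfun p s k = n}

/-- `L_s = ∑_k z^{b_s(k)}` as a power series. -/
noncomputable def Ls (p : ℕ) (s : Multiset ℤ) : PowerSeries ℤ :=
  PowerSeries.mk fun n => (lco p s n : ℤ)

/-- The `ℤ⟦z⟧`-linear map with `[s] ↦ L_s`. -/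
noncomputable def psiL (p : ℕ) (F : Ser) : PowerSeries ℤ :=
  PowerSeries.mk fun n => ∑ ij ∈ Finset.HasAntidiagonal.antidiagonal n,
    ((PowerSeries.coeff ij.1 F).coeff.sum fun s a => a * (lco p s ij.2 : ℤ))

/-- `∑_k z^{e(k)}` as a power series. -/
noncomputable def Pe (p m : ℕ) : PowerSeries ℤ :=
  PowerSeries.mk fun n => (pcoef p m 0 n : ℤ)

end Pool.Agent.Lib.MPba1bba.LC
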