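import Pool.Agent.Lib.MP_ba1bba_al.LC.Spec
import Pool.Agent.Lib.MP_ba1bba_al.AS.PSE

section
/-!
# MP_ba1bba_al, first coefficients in closed form: LNZ, the closed form of `psiL (Y ^ n)`
-/
set_option autoImplicit false

open scoped ENNReal

namespace Pool.Agent.Lib.MPba1bba.LC

open Pool.Agent.Lib.MPba1bba Pool.Agent.Lib.MPba1bba.AS Pool.Agent.Lib.MPba1bba.LR PowerSeries Vec

namespace LNZM

open Finset AS.PSEM

/-- nonnegative coefficients -/
def NS (f : PowerSeries ℤ) : Prop := ∀ n, 0 ≤ PowerSeries.coeff n f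

theorem ns_add {f g : PowerSeries ℤ} (hf : NS f) (hg : NS g) : NS (f + g) := fun n => by
  rw [map_add]
  exact add_nonneg (hf n) (hg n)

theorem ns_mul {f g : PowerSeries ℤ} (hf : NS f) (hg : NS g) : NS (f * g) := fun n => by
  rw [PowerSeries.coeff_mul]
  exact Finset.sum_nonneg fun ij _ => mul_nonneg (hf _) (hg _)

theorem ns_zero : NS 0 := fun n => by rw [map_zero]

theorem ns_X_pow (k : ℕ) : NS (X ^ k) := fun n => by
  rw [PowerSeries.coeff_X_pow]
  split_ifs <;> norm_num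

theorem ns_one : NS 1 := by
  have h := ns_X_pow 0
  rwa [pow_zero] at h

theorem ns_pow {f : PowerSeries ℤ} (hf : NS f) (k : ℕ) : NS (f ^ k) := by
  induction k with
  | zero => rw [pow_zero]; exact ns_one
  | succ k ih => rw [pow_succ]; exact ns_mul ih hf

theorem ns_sum {ι : Type} (T : Finset ι) (f : ι → PowerSeries ℤ) (h : ∀ i ∈ T, NS (f i)) :
    NS (∑ i ∈ T, f i) := fun n => by
  rw [map_sum]
  exact Finset.sum_nonneg fun i hi => h i hi n

theorem evs_zero (z : ℝ≥0∞) : evs z 0 = 0 := by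
  unfold evs
  simp

theorem evs_add (z : ℝ≥0∞) {f g : PowerSeries ℤ} (hf : NS f) (hg : NS g) :
    evs z (f + g) = evs z f + evs z g := by
  unfold evs
  rw [← ENNReal.tsum_add]
  refine tsum_congr fun n => ?_
  have h : ((PowerSeries.coeff n (f + g)).toNat : ℝ≥0∞) =
      tn (PowerSeries.coeff n f + PowerSeries.coeff n g) := by
    rw [map_add]
    rfl
  rw [h, tn_add (hf n) (hg n), mul_add]
  rfl

theorem evs_mul (z : ℝ≥0∞) {f g : PowerSeries ℤ} (hf : NS f) (hg : NS g) :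
    evs z (f * g) = evs z f * evs z g := by
  have h1 : evs z (f * g) = ∑' n : ℕ, ∑ ij ∈ Finset.HasAntidiagonal.antidiagonal n,
      (z ^ ij.1 * tn (PowerSeries.coeff ij.1 f)) * (z ^ ij.2 * tn (PowerSeries.coeff ij.2 g)) := by
    unfold evs
    refine tsum_congr fun n => ?_
    have h2 : ((PowerSeries.coeff n (f * g)).toNat : ℝ≥0∞) =
        tn (PowerSeries.coeff n (f * g)) := rfl
    rw [h2, PowerSeries.coeff_mul, tn_sum _ _ fun ij _ => mul_nonneg (hf _) (hg _), Finset.mul_sum]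
    refine Finset.sum_congr rfl fun ij hij => ?_
    have hij' := Finset.HasAntidiagonal.mem_antidiagonal.1 hij
    rw [tn_mul (hf _) (hg _), ← hij', pow_add]
    ring
  rw [h1, tsum_antidiag fun i j => (z ^ i * tn (PowerSeries.coeff i f)) *
    (z ^ j * tn (PowerSeries.coeff j g))]
  simp_rw [ENNReal.tsum_mul_left]
  rw [ENNReal.tsum_mul_right]
  rfl

theorem evs_X_pow (z : ℝ≥0∞) (k : ℕ) : evs z (X ^ k) = z ^ k := by
  unfold evs
  rw [tsum_eq_single k]
  · rw [PowerSeries.coeff_X_pow, if_pos rfl]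
    simp
  · intro n hn
    rw [PowerSeries.coeff_X_pow, if_neg hn]
    simp

theorem evs_one (z : ℝ≥0∞) : evs z 1 = 1 := by
  have h := evs_X_pow z 0
  rwa [pow_zero, pow_zero] at h

theorem evs_pow (z : ℝ≥0∞) {f : PowerSeries ℤ} (hf : NS f) (k : ℕ) :
    evs z (f ^ k) = evs z f ^ k := by
  induction k with
  | zero => rw [pow_zero, pow_zero, evs_one]
  | succ k ih => rw [pow_succ, pow_succ, evs_mul z (ns_pow hf k) hf, ih]

theorem evs_sum (z : ℝ≥0∞) {ι : Type} (T : Finset ι) (f : ι → PowerSeries ℤ)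
    (h : ∀ i ∈ T, NS (f i)) : evs z (∑ i ∈ T, f i) = ∑ i ∈ T, evs z (f i) := by
  classical
  induction T using Finset.induction_on with
  | empty => rw [Finset.sum_empty, Finset.sum_empty, evs_zero]
  | insert a T ha ih =>
    have h2 : ∀ i ∈ T, NS (f i) := fun i hi => h i (Finset.mem_insert_of_mem hi)
    rw [Finset.sum_insert ha, Finset.sum_insert ha,
      evs_add z (h a (Finset.mem_insert_self _ _)) (ns_sum T f h2), ih h2]

theorem ns_gz (n : ℕ) : NS (gz n) := ns_sum _ _ fun _ _ => ns_X_pow _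

theorem evs_gz (z : ℝ≥0∞) (n : ℕ) : evs z (gz n) = ∑ i ∈ Finset.range n, z ^ (i + 1) := by
  unfold gz
  rw [evs_sum z _ _ fun i _ => ns_X_pow _]
  exact Finset.sum_congr rfl fun i _ => evs_X_pow z _

theorem ns_cz (p t : ℕ) : NS (cz p t) := ns_add (ns_gz _) (ns_gz _)

theorem Ioo_image (p : ℕ) : Finset.Ioo 0 p = (Finset.range (p - 1)).image (fun i => i + 1) := by
  ext i
  simp only [Finset.mem_Ioo, Finset.mem_image, Finset.mem_range]
  constructor
  · rintro ⟨h1, h2⟩
    exact ⟨i - 1, by omega, by omega⟩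
  · rintro ⟨j, h1, h2⟩
    omega

theorem evs_cz (z : ℝ≥0∞) {p t : ℕ} (ht : t ≤ p - 1) : evs z (cz p t) = ce p t z := by
  unfold cz ce
  rw [evs_add z (ns_gz _) (ns_gz _), evs_gz, evs_gz, Ioo_image,
    Finset.sum_image (fun a _ b _ h => by simpa using h)]
  have h2 : p - 1 = t + (p - 1 - t) := by omega
  conv_rhs => rw [h2, Finset.sum_range_add]
  congr 1
  · refine Finset.sum_congr rfl fun i hi => ?_
    rw [Finset.mem_range] at hi
    rw [if_pos (by omega)]
  · rw [← Finset.sum_range_reflect (fun i => z ^ (i + 1)) (p - 1 - t)]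
    refine Finset.sum_congr rfl fun i hi => ?_
    rw [Finset.mem_range] at hi
    rw [if_neg (by omega)]
    congr 1
    omega

theorem na_serY (p : ℕ) : Nn (serY p) := by
  intro n s
  unfold serY
  rw [map_sum]
  have h : ∀ T : Finset ℕ, 0 ≤ (∑ i ∈ T, PowerSeries.coeff n
      (PowerSeries.monomial (min i (p - i))
        (AddMonoidAlgebra.single ({2 * (i : ℤ) - p} : Multiset ℤ) (1 : ℤ)) : Ser)).coeff s := by
    intro T
    induction T using Finset.induction_on with
    | empty =>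
      rw [Finset.sum_empty, AddMonoidAlgebra.coeff_zero]
      exact le_rfl
    | insert a T ha ih =>
      rw [Finset.sum_insert ha, AddMonoidAlgebra.coeff_add, Finsupp.add_apply]
      refine add_nonneg ?_ ih
      rw [PowerSeries.coeff_monomial]
      split_ifs
      · classical
        rw [AddMonoidAlgebra.coeff_single, Finsupp.single_apply]
        split_ifs <;> norm_num
      · rw [AddMonoidAlgebra.coeff_zero]
        exact le_rfl
  exact h _

theorem ce_ne_top (p t : ℕ) {z : ℝ≥0∞} (hz : z ≠ ∞) : ce p t z ≠ ∞ := by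
  unfold ce
  refine (ENNReal.sum_ne_top).2 fun i _ => ?_
  split_ifs
  · exact ENNReal.pow_ne_top hz
  · exact ENNReal.pow_ne_top hz

theorem A1_ne_top (p : ℕ) (hp : 2 ≤ p) {z : ℝ≥0∞} (hz : z ≤ 2⁻¹) : A1 p z ≠ ∞ := by
  have h1 : A1 p z ≤ ∑' k : ℕ, (2⁻¹ : ℝ≥0∞) ^ k := by
    unfold A1
    refine ENNReal.tsum_le_tsum fun k => ?_
    have hz1 : z ≤ 1 := hz.trans (by
      rw [ENNReal.inv_le_one]
      norm_num)
    calc z ^ (p * (k + 1)) ≤ z ^ k := by
          apply pow_le_pow_right_of_le_one' hz1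
          calc k ≤ 1 * (k + 1) := by omega
            _ ≤ p * (k + 1) := Nat.mul_le_mul_right _ (by omega)
      _ ≤ (2⁻¹ : ℝ≥0∞) ^ k := pow_le_pow_left' hz k
  rw [ENNReal.tsum_geometric] at h1
  refine ne_top_of_le_ne_top ?_ h1
  rw [ENNReal.one_sub_inv_two, inv_inv]
  norm_num

end LNZM

open LNZM AS.PSEM in
theorem specLNZ (hLNF : LR.SpecLNF) (hPLZ : SpecPLZ) (hEVA : AS.SpecEVA) (hUNI : SpecUNI) :
    SpecLNZ := by
  intro p n hp
  obtain ⟨-, -, -, P4, -, P6⟩ := hPLZ p hp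
  obtain ⟨⟨E1, -, E2⟩, E3, E4, -⟩ := hEVA
  have hY := na_serY p
  have hYn : ∀ k, Nn (serY p ^ k) ∧ ∀ z, ev z (serY p ^ k) = ev z (serY p) ^ k := by
    intro k
    induction k with
    | zero =>
      constructor
      · rw [pow_zero]; exact E1
      · intro z
        rw [pow_zero, pow_zero]
        exact (E2 z 0).1
    | succ k ih =>
      constructor
      · rw [pow_succ]
        exact (E3 _ _ ih.1 hY).2.1
      · intro z
        rw [pow_succ, pow_succ, (E4 z _ _ ih.1 hY).2.1, ih.2 z]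
  have hL0 : psiL p 1 = Lz p := by
    have h := P4 1
    rw [one_mul] at h
    rw [← h]
    congr 1
    unfold emb
    rw [map_one]
  have nsL : NS (Lz p) := by
    rw [← hL0]
    exact (P6 1 E1).1
  have evL : ∀ z, evs z (Lz p) = 1 + 2 * A1 p z := by
    intro z
    rw [← hL0, (P6 1 E1).2 z, (E2 z 0).1]
    have h := hLNF p z 0 hp
    rw [pow_zero, pow_zero, one_mul] at h
    rw [h]
    simp
  have nsT : ∀ t l k : ℕ, NS (cz p (t + 1) ^ l * cz p t ^ k) := fun t l k =>
    ns_mul (ns_pow (ns_cz _ _) _) (ns_pow (ns_cz _ _) _)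
  have nsS : ∀ t : ℕ, NS (∑ l ∈ Finset.range n, cz p (t + 1) ^ l * cz p t ^ (n - 1 - l)) :=
    fun t => ns_sum _ _ fun l _ => nsT t l _
  have nsR1 : NS (cz p 0 ^ n * Lz p) := ns_mul (ns_pow (ns_cz _ _) _) nsL
  have nsR2 : NS (∑ t ∈ Finset.range (p - 1), X ^ (p - 1 - t) *
    ∑ l ∈ Finset.range n, cz p (t + 1) ^ l * cz p t ^ (n - 1 - l)) :=
    ns_sum _ _ fun t _ => ns_mul (ns_X_pow _) (nsS t)
  apply hUNI _ _ (P6 _ (hYn n).1).1 (ns_add nsR1 nsR2)
  intro z hz0 hz
  have hzt : z ≠ ∞ := ne_top_of_le_ne_top (by norm_num) hz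
  have key : evs z (psiL p (serY p ^ n)) = ce p 0 z ^ n * (1 + 2 * A1 p z) +
    ∑ t ∈ Finset.Ioo 0 p, z ^ (p - t) *
      ∑ l ∈ Finset.range n, ce p t z ^ l * ce p (t - 1) z ^ (n - 1 - l) := by
    rw [(P6 _ (hYn n).1).2 z, (hYn n).2 z]
    exact hLNF p z n hp
  constructor
  · rw [key, evs_add z nsR1 nsR2, evs_mul z (ns_pow (ns_cz _ _) _) nsL, evs_pow z (ns_cz _ _),
      evs_cz z (Nat.zero_le _), evL z, evs_sum z _ _ fun t _ => ns_mul (ns_X_pow _) (nsS t),
      Ioo_image, Finset.sum_image (fun a _ b _ h => by simpa using h)]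
    congr 1
    refine Finset.sum_congr rfl fun t ht => ?_
    rw [Finset.mem_range] at ht
    rw [evs_mul z (ns_X_pow _) (nsS t), evs_X_pow, evs_sum z _ _ fun l _ => nsT t l _]
    have h1 : p - (t + 1) = p - 1 - t := by omega
    rw [h1]
    congr 1
    refine Finset.sum_congr rfl fun l _ => ?_
    rw [evs_mul z (ns_pow (ns_cz _ _) _) (ns_pow (ns_cz _ _) _), evs_pow z (ns_cz _ _),
      evs_pow z (ns_cz _ _), evs_cz z (by omega), evs_cz z (by omega), Nat.add_sub_cancel]
  · rw [key]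
    refine ENNReal.add_ne_top.2 ⟨?_, ?_⟩
    · refine ENNReal.mul_ne_top (ENNReal.pow_ne_top (ce_ne_top p 0 hzt)) ?_
      exact ENNReal.add_ne_top.2 ⟨by norm_num, ENNReal.mul_ne_top (by norm_num) (A1_ne_top p hp hz)⟩
    · refine (ENNReal.sum_ne_top).2 fun t _ => ?_
      refine ENNReal.mul_ne_top (ENNReal.pow_ne_top hzt) ((ENNReal.sum_ne_top).2 fun l _ => ?_)
      exact ENNReal.mul_ne_top (ENNReal.pow_ne_top (ce_ne_top p _ hzt))
        (ENNReal.pow_ne_top (ce_ne_top p _ hzt))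

end Pool.Agent.Lib.MPba1bba.LC
end

section
/-!
# MP_ba1bba_al, first coefficients in closed form: PLZ, the linear map `psiL`
-/
set_option autoImplicit false

open scoped ENNReal
open Classical

namespace Pool.Agent.Lib.MPba1bba.LC

open Pool.Agent.Lib.MPba1bba Pool.Agent.Lib.MPba1bba.AS Pool.Agent.Lib.MPba1bba.LR PowerSeries Vec

namespace PLZM

open Finset AS.PSEM

/-- The additive map on coefficients used by `psiL`. -/
noncomputable def qc (p : ℕ) (j : ℕ) (x : SR) : ℤ :=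
  x.coeff.sum fun s a => a * (lco p s j : ℤ)

theorem qc_add (p : ℕ) (j : ℕ) (x y : SR) : qc p j (x + y) = qc p j x + qc p j y := by
  unfold qc
  rw [AddMonoidAlgebra.coeff_add, Finsupp.sum_add_index']
  · intro s
    exact zero_mul _
  · intro s a b
    exact add_mul _ _ _

theorem qc_zero (p : ℕ) (j : ℕ) : qc p j 0 = 0 := by
  unfold qc
  rw [AddMonoidAlgebra.coeff_zero]
  exact Finsupp.sum_zero_index

/-- As an additive homomorphism. -/
noncomputable def qch (p : ℕ) (j : ℕ) : SR →+ ℤ where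
  toFun := qc p j
  map_zero' := qc_zero p j
  map_add' := qc_add p j

theorem coeff_psiL (p : ℕ) (F : Ser) (n : ℕ) :
    PowerSeries.coeff n (psiL p F) = ∑ ij ∈ Finset.HasAntidiagonal.antidiagonal n,
      qch p ij.2 (PowerSeries.coeff ij.1 F) := by
  rw [psiL, PowerSeries.coeff_mk]
  rfl

theorem psiL_add (p : ℕ) (F G : Ser) : psiL p (F + G) = psiL p F + psiL p G := by
  ext n
  rw [map_add, coeff_psiL, coeff_psiL, coeff_psiL, ← Finset.sum_add_distrib]
  refine Finset.sum_congr rfl fun ij _ => ?_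
  rw [map_add, map_add]

theorem qch_int_mul (p j : ℕ) (c : ℤ) (x : SR) :
    qch p j ((Int.castRingHom SR) c * x) = c * qch p j x := by
  have h : (Int.castRingHom SR) c * x = c • x := by
    rw [zsmul_eq_mul]
    rfl
  rw [h, map_zsmul, smul_eq_mul]

theorem psiL_emb (p : ℕ) (f : PowerSeries ℤ) (F : Ser) :
    psiL p (emb f * F) = f * psiL p F := by
  ext n
  rw [coeff_psiL, PowerSeries.coeff_mul]
  have h1 : ∀ x ∈ Finset.HasAntidiagonal.antidiagonal n,
      qch p x.2 (PowerSeries.coeff x.1 (emb f * F)) =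
      ∑ y ∈ Finset.HasAntidiagonal.antidiagonal x.1,
        PowerSeries.coeff y.1 f * qch p x.2 (PowerSeries.coeff y.2 F) := by
    intro x _
    rw [PowerSeries.coeff_mul, map_sum]
    refine Finset.sum_congr rfl fun y _ => ?_
    rw [emb, PowerSeries.coeff_map, qch_int_mul]
  rw [Finset.sum_congr rfl h1,
    antidiag_assoc n (fun a b c => PowerSeries.coeff a f * qch p c (PowerSeries.coeff b F))]
  refine Finset.sum_congr rfl fun x _ => ?_
  rw [coeff_psiL, Finset.mul_sum]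

theorem emb_X_pow (N : ℕ) : emb ((X : PowerSeries ℤ) ^ N) = (X : Ser) ^ N := by
  unfold emb
  rw [map_pow, PowerSeries.map_X]

theorem psiL_dvd (p : ℕ) (F G : Ser) (N : ℕ) (h : X ^ N ∣ F - G) :
    X ^ N ∣ psiL p F - psiL p G := by
  obtain ⟨H, hH⟩ := h
  have h1 : F = emb (X ^ N) * H + G := by
    rw [emb_X_pow, ← hH]
    ring
  rw [h1, psiL_add, psiL_emb]
  exact ⟨psiL p H, by ring⟩

theorem psiL_one (p : ℕ) : psiL p 1 = Ls p 0 := by
  ext n
  rw [coeff_psiL, Ls, PowerSeries.coeff_mk]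
  rw [Finset.sum_eq_single (0, n)]
  · rw [PowerSeries.coeff_zero_one]
    show qc p n 1 = _
    unfold qc
    rw [AddMonoidAlgebra.one_def, AddMonoidAlgebra.coeff_single, Finsupp.sum_single_index, one_mul]
    exact zero_mul _
  · rintro ⟨a, b⟩ hab hne
    rw [Finset.HasAntidiagonal.mem_antidiagonal] at hab
    dsimp only at hab ⊢
    have ha : a ≠ 0 := by
      rintro rfl
      exact hne (by rw [← hab, zero_add])
    rw [PowerSeries.coeff_one, if_neg ha, map_zero]
  · intro h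
    exact absurd (Finset.HasAntidiagonal.mem_antidiagonal.2 (by simp)) h

/-! the value at the empty state -/

theorem lco_zero_zero (p : ℕ) (hp : 2 ≤ p) : lco p 0 0 = 1 := by
  unfold lco
  have h0 := (specBFN p).2.2.1
  have h1 : Unique {k : ℤ // bfun p 0 k = 0} :=
    ⟨⟨⟨0, by rw [h0]; simp⟩⟩, by
      rintro ⟨k, hk⟩
      rw [h0] at hk
      have : k.natAbs = 0 := by
        rcases Nat.mul_eq_zero.1 hk with h | h
        · omega
        · exact h
      apply Subtype.ext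
      show k = 0
      omega⟩
  exact Nat.card_unique

theorem lco_zero_mul (p : ℕ) (hp : 2 ≤ p) (q : ℕ) (hq : 0 < q) : lco p 0 (p * q) = 2 := by
  unfold lco
  have h0 := (specBFN p).2.2.1
  have h1 : {k : ℤ | bfun p 0 k = p * q} = ({(q : ℤ), -(q : ℤ)} : Set ℤ) := by
    ext k
    rw [Set.mem_setOf_eq, h0, Set.mem_insert_iff, Set.mem_singleton_iff]
    constructor
    · intro h
      have := Nat.eq_of_mul_eq_mul_left (by omega : 0 < p) h
      omega
    · intro h
      congr 1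
      omega
  have h2 : Nat.card {k : ℤ // bfun p 0 k = p * q} = Set.ncard {k : ℤ | bfun p 0 k = p * q} := rfl
  rw [h2, h1, Set.ncard_pair]
  omega

theorem lco_zero_of_not_dvd (p : ℕ) (n : ℕ) (hn : ¬ p ∣ n) : lco p 0 n = 0 := by
  unfold lco
  have h0 := (specBFN p).2.2.1
  have h1 : IsEmpty {k : ℤ // bfun p 0 k = n} :=
    ⟨by
      rintro ⟨k, hk⟩
      rw [h0] at hk
      exact hn ⟨_, hk.symm⟩⟩
  exact Nat.card_of_isEmpty

theorem Ls_eq (p : ℕ) (hp : 2 ≤ p) : (1 - (X : PowerSeries ℤ) ^ p) * Ls p 0 = 1 + X ^ p := by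
  ext n
  rw [sub_mul, one_mul, map_sub, map_add, PowerSeries.coeff_X_pow_mul', PowerSeries.coeff_X_pow,
    PowerSeries.coeff_one]
  have hL : ∀ j, PowerSeries.coeff j (Ls p 0) = (lco p 0 j : ℤ) := fun j => by
    rw [Ls, PowerSeries.coeff_mk]
  rw [hL, hL]
  rcases Nat.lt_or_ge n p with h | h
  · rw [if_neg (by omega), if_neg (by omega : ¬ n = p)]
    rcases Nat.eq_zero_or_pos n with h0 | h0
    · subst h0
      rw [lco_zero_zero p hp]
      simp
    · rw [lco_zero_of_not_dvd p n (fun hd => by have := Nat.le_of_dvd h0 hd; omega),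
        if_neg (by omega)]
      simp
  · rw [if_pos h, if_neg (by omega : ¬ n = 0)]
    rcases Nat.eq_or_lt_of_le h with h1 | h1
    · subst h1
      have h2 := lco_zero_mul p hp 1 one_pos
      rw [mul_one] at h2
      rw [h2, Nat.sub_self, lco_zero_zero p hp, if_pos rfl]
      norm_num
    · rw [if_neg (by omega : ¬ n = p)]
      by_cases hd : p ∣ n
      · obtain ⟨q, rfl⟩ := hd
        have hq : 1 < q := by
          by_contra hc
          have : q ≤ 1 := by omega
          have := Nat.mul_le_mul_left p this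
          omega
        obtain ⟨q', rfl⟩ : ∃ q', q = q' + 2 := ⟨q - 2, by omega⟩
        have h3 : p * (q' + 2) - p = p * (q' + 1) := by
          rw [show q' + 2 = (q' + 1) + 1 from rfl, Nat.mul_succ p (q' + 1)]
          omega
        rw [h3, lco_zero_mul p hp _ (by omega), lco_zero_mul p hp _ (by omega)]
        norm_num
      · have hd' : ¬ p ∣ n - p := by
          rintro ⟨q, hq⟩
          exact hd ⟨q + 1, by rw [Nat.mul_succ]; omega⟩
        rw [lco_zero_of_not_dvd p n hd, lco_zero_of_not_dvd p _ hd']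
        norm_num

theorem Ls_Lz (p : ℕ) (hp : 2 ≤ p) : Ls p 0 = Lz p := by
  have h1 : PowerSeries.constantCoeff (1 - (X : PowerSeries ℤ) ^ p) = ((1 : ℤˣ) : ℤ) := by
    rw [map_sub, map_one, map_pow, PowerSeries.constantCoeff_X, zero_pow (by omega)]
    simp
  have h2 : (1 - (X : PowerSeries ℤ) ^ p) * iv (1 - X ^ p) = 1 := by
    unfold iv
    exact PowerSeries.mul_invOfUnit _ _ h1
  unfold Lz
  rw [← Ls_eq p hp]
  calc Ls p 0 = Ls p 0 * ((1 - (X : PowerSeries ℤ) ^ p) * iv (1 - X ^ p)) := by rw [h2, mul_one]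
    _ = (1 - (X : PowerSeries ℤ) ^ p) * Ls p 0 * iv (1 - X ^ p) := by ring

/-! evaluation -/

theorem qc_nonneg (p j : ℕ) (x : SR) (hx : ∀ s, 0 ≤ x.coeff s) : 0 ≤ qch p j x := by
  refine Finset.sum_nonneg fun s _ => ?_
  exact mul_nonneg (hx s) (Int.natCast_nonneg _)

theorem tn_qc (p j : ℕ) (x : SR) (hx : ∀ s, 0 ≤ x.coeff s) :
    tn (qch p j x) = ∑' s, tn (x.coeff s) * (lco p s j : ℝ≥0∞) := by
  have h0 : qch p j x = ∑ s ∈ x.coeff.support, x.coeff s * (lco p s j : ℤ) := rfl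
  rw [h0, tn_sum _ _ fun s _ => mul_nonneg (hx s) (Int.natCast_nonneg _)]
  rw [tsum_eq_sum (s := x.coeff.support)]
  · refine Finset.sum_congr rfl fun s _ => ?_
    rw [tn_mul (hx s) (Int.natCast_nonneg _), tn_nat]
  · intro s hs
    rw [Finsupp.notMem_support_iff.1 hs, tn_zero, zero_mul]

theorem LF_eq (p : ℕ) (hp : 2 ≤ p) (hPRF : LR.SpecPRF) (z : ℝ≥0∞) (s : Multiset ℤ) :
    LF p z s = ∑' j : ℕ, z ^ j * (lco p s j : ℝ≥0∞) := by
  unfold LF
  rw [← (Equiv.sigmaFiberEquiv (fun k : ℤ => bfun p s k)).tsum_eq,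
    ENNReal.tsum_sigma']
  refine tsum_congr fun j => ?_
  have hfin : Finite {k : ℤ // bfun p s k = j} := by
    have h : {k : ℤ | bfun p s k = j}.Finite := by
      refine (Set.finite_Icc (-((j : ℤ))) ((Multiset.card s : ℤ) + j)).subset ?_
      intro k hk
      rw [Set.mem_setOf_eq] at hk
      obtain ⟨i, hi, hk2⟩ := (hPRF p (by omega) s).2.1 k
      rw [hk] at hk2
      have h3 : 1 * (k - (i : ℤ)).natAbs ≤ p * (k - (i : ℤ)).natAbs :=
        Nat.mul_le_mul_right _ (by omega)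
      rw [Set.mem_Icc]
      omega
    exact h.to_subtype
  have hft := Fintype.ofFinite {k : ℤ // bfun p s k = j}
  have h1 : ∀ k : {k : ℤ // bfun p s k = j},
      z ^ bfun p s ((Equiv.sigmaFiberEquiv (fun k : ℤ => bfun p s k)) ⟨j, k⟩) = z ^ j := by
    intro k
    congr 1
    exact k.2
  rw [tsum_congr h1, tsum_fintype, Finset.sum_const, Finset.card_univ, lco,
    Nat.card_eq_fintype_card, nsmul_eq_mul, mul_comm]

theorem coeff_nonneg (p : ℕ) (F : Ser) (hF : Nn F) (n : ℕ) :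
    0 ≤ PowerSeries.coeff n (psiL p F) := by
  rw [coeff_psiL]
  exact Finset.sum_nonneg fun ij _ => qc_nonneg p ij.2 _ fun s => hF ij.1 s

theorem evs_psiL (p : ℕ) (hp : 2 ≤ p) (hPRF : LR.SpecPRF) (F : Ser) (hF : Nn F) (z : ℝ≥0∞) :
    evs z (psiL p F) = pr (ev z F) (LF p z) := by
  have h1 : evs z (psiL p F) = ∑' n : ℕ, ∑ ij ∈ Finset.HasAntidiagonal.antidiagonal n,
      ∑' s, (z ^ ij.1 * tn ((PowerSeries.coeff ij.1 F).coeff s)) *
        (z ^ ij.2 * (lco p s ij.2 : ℝ≥0∞)) := by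
    unfold evs
    refine tsum_congr fun n => ?_
    have h2 : ((PowerSeries.coeff n (psiL p F)).toNat : ℝ≥0∞) =
        tn (PowerSeries.coeff n (psiL p F)) := rfl
    rw [h2, coeff_psiL, tn_sum _ _ fun ij _ => qc_nonneg p ij.2 _ fun s => hF ij.1 s,
      Finset.mul_sum]
    refine Finset.sum_congr rfl fun ij hij => ?_
    have hij' := Finset.HasAntidiagonal.mem_antidiagonal.1 hij
    rw [tn_qc p ij.2 _ fun s => hF ij.1 s, ← ENNReal.tsum_mul_left]
    refine tsum_congr fun s => ?_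
    rw [← hij', pow_add]
    ring
  rw [h1, tsum_antidiag fun i j => ∑' s, (z ^ i * tn ((PowerSeries.coeff i F).coeff s)) *
        (z ^ j * (lco p s j : ℝ≥0∞))]
  unfold pr
  have h3 : ∀ i : ℕ, ∑' j : ℕ, ∑' s, (z ^ i * tn ((PowerSeries.coeff i F).coeff s)) *
        (z ^ j * (lco p s j : ℝ≥0∞)) =
      ∑' s, (z ^ i * tn ((PowerSeries.coeff i F).coeff s)) * LF p z s := by
    intro i
    rw [ENNReal.tsum_comm]
    refine tsum_congr fun s => ?_
    rw [ENNReal.tsum_mul_left, LF_eq p hp hPRF]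
  rw [tsum_congr h3, ENNReal.tsum_comm]
  refine tsum_congr fun s => ?_
  rw [ENNReal.tsum_mul_right]
  rfl

end PLZM

open PLZM in
theorem specPLZ (hPRF : LR.SpecPRF) : SpecPLZ := fun p hp =>
  ⟨psiL_add p, psiL_emb p, psiL_dvd p, fun f => by
      have h := psiL_emb p f 1
      rw [mul_one, psiL_one, Ls_Lz p hp] at h
      exact h,
    Ls_Lz p hp, fun F hF => ⟨coeff_nonneg p F hF, evs_psiL p hp hPRF F hF⟩⟩

end Pool.Agent.Lib.MPba1bba.LC
end
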