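import Pool.Agent.Lib.MP_ba1bba_al.LC.Spec

section
/-!
# MP_ba1bba_al, module ALG: the series `S` is algebraic over `ℤ[X]`
-/
namespace Pool.Agent.Lib.MPba1bba.LC

open Pool.Agent.Lib.MPba1bba Pool.Agent.Lib.MPba1bba.AS Pool.Agent.Lib.MPba1bba.LR PowerSeries

namespace ALGM

/-- `f` is a rational function of `e` over `ℤ[X]` with a denominator which is `1` for `X = 0`. -/
def Rt (e f : PowerSeries ℤ) : Prop := ∃ n d : Polynomial (Polynomial ℤ),
  Polynomial.aeval e d * f = Polynomial.aeval e n ∧ d.map (Polynomial.evalRingHom (0 : ℤ)) = 1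

theorem rt_pol (e : PowerSeries ℤ) (q : Polynomial ℤ) :
    Rt e (algebraMap (Polynomial ℤ) (PowerSeries ℤ) q) :=
  ⟨Polynomial.C q, 1, by simp, by simp⟩

theorem rt_e (e : PowerSeries ℤ) : Rt e e := ⟨Polynomial.X, 1, by simp, by simp⟩

theorem Rt.add {e f g : PowerSeries ℤ} (hf : Rt e f) (hg : Rt e g) : Rt e (f + g) := by
  obtain ⟨n, d, h, hd⟩ := hf
  obtain ⟨n', d', h', hd'⟩ := hg
  refine ⟨n * d' + n' * d, d * d', ?_, by rw [Polynomial.map_mul, hd, hd', one_mul]⟩
  rw [map_mul, map_add, map_mul, map_mul, ← h, ← h']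
  ring

theorem Rt.mul {e f g : PowerSeries ℤ} (hf : Rt e f) (hg : Rt e g) : Rt e (f * g) := by
  obtain ⟨n, d, h, hd⟩ := hf
  obtain ⟨n', d', h', hd'⟩ := hg
  refine ⟨n * n', d * d', ?_, by rw [Polynomial.map_mul, hd, hd', one_mul]⟩
  rw [map_mul, map_mul, ← h, ← h']
  ring

theorem rt_sum {e : PowerSeries ℤ} {ι : Type*} (s : Finset ι) {f : ι → PowerSeries ℤ}
    (hf : ∀ i ∈ s, Rt e (f i)) : Rt e (∑ i ∈ s, f i) := by
  classical
  induction s using Finset.induction_on with
  | empty => simpa using rt_pol e 0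
  | insert a s ha ih =>
    rw [Finset.sum_insert ha]
    exact (hf a (Finset.mem_insert_self a s)).add
      (ih fun i hi => hf i (Finset.mem_insert_of_mem hi))

theorem rt_iv {e f : PowerSeries ℤ} (hf : f * iv f = 1) {d : Polynomial (Polynomial ℤ)}
    (h : Polynomial.aeval e d = f) (hd : d.map (Polynomial.evalRingHom (0 : ℤ)) = 1) :
    Rt e (iv f) :=
  ⟨1, d, by rw [h, hf, map_one], hd⟩

theorem am_X : algebraMap (Polynomial ℤ) (PowerSeries ℤ) Polynomial.X = X := by
  rw [PowerSeries.algebraMap_apply']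
  simp

/-- `X + ... + X^n` as a polynomial. -/
noncomputable def gp (n : ℕ) : Polynomial ℤ := ∑ i ∈ Finset.range n, Polynomial.X ^ (i + 1)

theorem am_gp (n : ℕ) : algebraMap (Polynomial ℤ) (PowerSeries ℤ) (gp n) = gz n := by
  rw [gp, gz, map_sum]
  exact Finset.sum_congr rfl fun i _ => by rw [map_pow, am_X]

theorem eval_gp (n : ℕ) : (gp n).eval 0 = 0 := by
  rw [gp, Polynomial.eval_finsetSum]
  exact Finset.sum_eq_zero fun i _ => by simp

/-- `c_t` as a polynomial. -/
noncomputable def cp (p t : ℕ) : Polynomial ℤ := gp t + gp (p - 1 - t)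

theorem am_cp (p t : ℕ) : algebraMap (Polynomial ℤ) (PowerSeries ℤ) (cp p t) = cz p t := by
  rw [cp, cz, map_add, am_gp, am_gp]

theorem eval_cp (p t : ℕ) : (cp p t).eval 0 = 0 := by
  rw [cp, Polynomial.eval_add, eval_gp, eval_gp, add_zero]

theorem rt_cz (e : PowerSeries ℤ) (p t : ℕ) : Rt e (cz p t) := by
  rw [← am_cp]
  exact rt_pol e _

theorem rt_X (e : PowerSeries ℤ) (k : ℕ) : Rt e (X ^ k) := by
  rw [← am_X, ← map_pow]
  exact rt_pol e _

theorem rt_one (e : PowerSeries ℤ) : Rt e 1 := by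
  simpa using rt_X e 0

theorem rt_uz (hIVZ : SpecIVZ) (e : PowerSeries ℤ) {p : ℕ} (hp : 2 ≤ p) (t : ℕ) :
    Rt e (uz p t e) := by
  have h1 := (hIVZ.1 _ ((hIVZ.2.2.1 p t e hp).2.1)).1
  refine rt_iv h1 (d := 1 - Polynomial.X * Polynomial.C (cp p t)) ?_ ?_
  · rw [map_sub, map_mul, Polynomial.aeval_X, Polynomial.aeval_C, am_cp, map_one]
  · rw [Polynomial.map_sub, Polynomial.map_mul, Polynomial.map_C, Polynomial.coe_evalRingHom,
      eval_cp]
    simp

theorem rt_Lz (hIVZ : SpecIVZ) (e : PowerSeries ℤ) {p : ℕ} (hp : 2 ≤ p) : Rt e (Lz p) := by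
  have h1 := (hIVZ.1 _ ((hIVZ.2.2.1 p 0 e hp).2.2.1)).1
  refine ((rt_one e).add (rt_X e p)).mul (rt_iv h1
    (d := Polynomial.C (1 - Polynomial.X ^ p)) ?_ ?_)
  · rw [Polynomial.aeval_C, map_sub, map_one, map_pow, am_X]
  · rw [Polynomial.map_C, Polynomial.coe_evalRingHom]
    have : p ≠ 0 := by omega
    simp [this]

theorem rt_Mz (hIVZ : SpecIVZ) (e : PowerSeries ℤ) {p : ℕ} (hp : 2 ≤ p) : Rt e (Mz p e) := by
  refine (((rt_Lz hIVZ e hp).mul ((rt_one e).add (rt_cz e p 0))).mul (rt_uz hIVZ e hp 0)).add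
    (((rt_one e).add (rt_e e)).mul (rt_sum _ fun t _ => ?_))
  exact ((rt_X e _).mul (rt_uz hIVZ e hp t)).mul (rt_uz hIVZ e hp (t + 1))

/-- `e` is algebraic. -/
theorem alg_e (hIVZ : SpecIVZ) {p : ℕ} {e : PowerSeries ℤ} (hp : 2 ≤ p)
    (he : e + X ^ 2 = X ^ 2 * ((1 + e) * Mz p e)) : IsAlgebraic (Polynomial ℤ) e := by
  obtain ⟨n, d, h, hd⟩ := rt_Mz hIVZ e hp
  refine ⟨(Polynomial.X + Polynomial.C (Polynomial.X ^ 2)) * d -
    Polynomial.C (Polynomial.X ^ 2) * (1 + Polynomial.X) * n, fun h0 => ?_, ?_⟩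
  · have h1 := congrArg (Polynomial.map (Polynomial.evalRingHom (0 : ℤ))) h0
    rw [Polynomial.map_sub, Polynomial.map_mul, Polynomial.map_mul, Polynomial.map_mul,
      Polynomial.map_add, hd, Polynomial.map_C, Polynomial.coe_evalRingHom, Polynomial.eval_pow,
      Polynomial.eval_X, Polynomial.map_X, Polynomial.map_zero] at h1
    simp at h1
  · rw [map_sub, map_mul, map_mul, map_mul, map_add, map_add, Polynomial.aeval_C, map_pow, am_X,
      Polynomial.aeval_X, map_one, ← h]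
    linear_combination (Polynomial.aeval e d) * he

theorem alg_pol (q : Polynomial ℤ) :
    IsAlgebraic (Polynomial ℤ) (algebraMap (Polynomial ℤ) (PowerSeries ℤ) q) :=
  isAlgebraic_algebraMap q

theorem alg_iv (hIVZ : SpecIVZ) {f : PowerSeries ℤ} (hf : PowerSeries.constantCoeff f = 1)
    (h : IsAlgebraic (Polynomial ℤ) f) : IsAlgebraic (Polynomial ℤ) (iv f) := by
  have h1 := (hIVZ.1 f hf).1
  let I : Invertible f := ⟨iv f, by rw [mul_comm]; exact h1, h1⟩
  exact IsAlgebraic.invOf (x := f) h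

theorem alg_X (k : ℕ) : IsAlgebraic (Polynomial ℤ) (X ^ k : PowerSeries ℤ) := by
  rw [← am_X, ← map_pow]
  exact alg_pol _

theorem alg_one : IsAlgebraic (Polynomial ℤ) (1 : PowerSeries ℤ) := by
  simpa using alg_X 0

theorem alg_cz (p t : ℕ) : IsAlgebraic (Polynomial ℤ) (cz p t) := by
  rw [← am_cp]
  exact alg_pol _

theorem alg_uz (hIVZ : SpecIVZ) {e : PowerSeries ℤ} {p : ℕ} (hp : 2 ≤ p)
    (he : IsAlgebraic (Polynomial ℤ) e) (t : ℕ) : IsAlgebraic (Polynomial ℤ) (uz p t e) :=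
  alg_iv hIVZ ((hIVZ.2.2.1 p t e hp).2.1) (alg_one.sub (he.mul (alg_cz p t)))

theorem alg_Lz (hIVZ : SpecIVZ) {p : ℕ} (hp : 2 ≤ p) : IsAlgebraic (Polynomial ℤ) (Lz p) :=
  (alg_one.add (alg_X p)).mul
    (alg_iv hIVZ ((hIVZ.2.2.1 p 0 0 hp).2.2.1) (alg_one.sub (alg_X p)))

theorem alg_sum {ι : Type*} (s : Finset ι) {f : ι → PowerSeries ℤ}
    (hf : ∀ i ∈ s, IsAlgebraic (Polynomial ℤ) (f i)) :
    IsAlgebraic (Polynomial ℤ) (∑ i ∈ s, f i) := by
  classical
  induction s using Finset.induction_on with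
  | empty => simpa using alg_pol 0
  | insert a s ha ih =>
    rw [Finset.sum_insert ha]
    exact (hf a (Finset.mem_insert_self a s)).add
      (ih fun i hi => hf i (Finset.mem_insert_of_mem hi))

theorem alg_Wz (hIVZ : SpecIVZ) {e : PowerSeries ℤ} {p : ℕ} (hp : 2 ≤ p)
    (he : IsAlgebraic (Polynomial ℤ) e) : IsAlgebraic (Polynomial ℤ) (Wz p e) :=
  alg_sum _ fun t _ => ((alg_X _).mul (alg_uz hIVZ hp he t)).mul (alg_uz hIVZ hp he (t + 1))

theorem alg_Mz (hIVZ : SpecIVZ) {e : PowerSeries ℤ} {p : ℕ} (hp : 2 ≤ p)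
    (he : IsAlgebraic (Polynomial ℤ) e) : IsAlgebraic (Polynomial ℤ) (Mz p e) :=
  (((alg_Lz hIVZ hp).mul (alg_one.add (alg_cz p 0))).mul (alg_uz hIVZ hp he 0)).add
    ((alg_one.add he).mul (alg_Wz hIVZ hp he))

theorem alg_Nz (hIVZ : SpecIVZ) {e : PowerSeries ℤ} {p : ℕ} (hp : 2 ≤ p)
    (he : IsAlgebraic (Polynomial ℤ) e) : IsAlgebraic (Polynomial ℤ) (Nz p e) :=
  (((alg_Lz hIVZ hp).mul (alg_cz p 0)).mul (alg_uz hIVZ hp he 0)).add (alg_Wz hIVZ hp he)

theorem alg_Gz (hIVZ : SpecIVZ) {e : PowerSeries ℤ} {p : ℕ} (hp : 2 ≤ p)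
    (he : IsAlgebraic (Polynomial ℤ) e) : IsAlgebraic (Polynomial ℤ) (Gz p e) := by
  refine (alg_one.add he).mul (alg_iv hIVZ (hIVZ.2.2.1 p 0 (Mz p e) hp).2.2.2.1
    (alg_one.sub (IsAlgebraic.mul ?_ (alg_Mz hIVZ hp he))))
  simpa using alg_X 1

end ALGM

open ALGM

/-- **ALG.** -/
theorem specALG (hIVZ : SpecIVZ) : SpecALG := by
  intro p e hp he
  have h0 := alg_e hIVZ hp he
  have hL := alg_Lz hIVZ hp
  have hG := alg_Gz hIVZ hp h0
  have h2 : IsAlgebraic (Polynomial ℤ) (2 : PowerSeries ℤ) := by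
    have := alg_one.add alg_one
    rwa [one_add_one_eq_two] at this
  exact ((alg_one.sub (alg_X 2)).mul (alg_iv hIVZ (hIVZ.2.2.1 p 0 (Lz p) hp).2.2.2.2
    (alg_one.sub ((alg_X 2).mul hL)))).mul
    ((((h2.mul hG).sub (alg_one.add h0)).mul hL).add ((hG.pow 2).mul (alg_Nz hIVZ hp h0)))

end Pool.Agent.Lib.MPba1bba.LC
end

section
/-!
# MP_ba1bba_al, LC: final assembly
-/
open scoped ENNReal

namespace Pool.Agent.Lib.MPba1bba.LC

open Pool.Agent.Lib.MPba1bba Pool.Agent.Lib.MPba1bba.AS Pool.Agent.Lib.MPba1bba.LR PowerSeries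

theorem specCFI (hMain : MainStatement) (hUVX : SpecUVX) (hEVL : SpecEVL) (hEEX : SpecEEX) (hFCO : SpecFCO)
    (hALG : SpecALG) : SpecCFI := by
  intro p hp
  obtain ⟨e, he, huni⟩ := hEEX p hp
  refine ⟨e, he, huni, hALG p e hp he, fun m n hm hn => ?_⟩
  obtain ⟨Q, E, H, hsys, -, hcount⟩ := hMain p m hp hm
  have hadd := (hEVL p m).1
  have hveq : ∀ W : Ser, VEq p m Q E W ↔ W = PowerSeries.X * lam p m (serR Q E) +
      PowerSeries.X * lam p m (serR Q E * rm0 W) := by
    intro W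
    unfold VEq
    have e : PowerSeries.X * lam p m ((1 + Q * (1 + E)) * (1 + rm0 W)) =
        PowerSeries.X * lam p m (serR Q E) + PowerSeries.X * lam p m (serR Q E * rm0 W) := by
      rw [← mul_add, ← hadd]
      congr 2
      unfold serR
      ring
    rw [e]
  obtain ⟨V, hV, hVu, -⟩ := hUVX p m (PowerSeries.X * lam p m (serR Q E)) (serR Q E)
  obtain ⟨U, hUe, -, -⟩ := hUVX p m (1 + E) (serR Q E)
  have d : Dat p m Q E H V U := ⟨hp, hm, hsys, (hveq V).2 hV, hUe⟩
  have h := hFCO p m Q E H V U d (n + 1) e (by omega) he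
  rw [PowerSeries.X_pow_dvd_iff] at h
  have h2 := h n (Nat.lt_succ_self n)
  rw [map_sub, sub_eq_zero] at h2
  rw [hcount n, h2]

end Pool.Agent.Lib.MPba1bba.LC
end

section
/-!
# MP_ba1bba_al, first coefficients in closed form: comparison of `E`
-/
open scoped ENNReal

namespace Pool.Agent.Lib.MPba1bba.LC

open Pool.Agent.Lib.MPba1bba Pool.Agent.Lib.MPba1bba.AS Pool.Agent.Lib.MPba1bba.LR PowerSeries Vec

namespace ECOM

theorem emb_mul (f g : PowerSeries ℤ) : emb (f * g) = emb f * emb g := by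
  unfold emb; exact map_mul _ _ _

theorem emb_add (f g : PowerSeries ℤ) : emb (f + g) = emb f + emb g := by
  unfold emb; exact map_add _ _ _

theorem emb_sub (f g : PowerSeries ℤ) : emb (f - g) = emb f - emb g := by
  unfold emb; exact map_sub _ _ _

theorem emb_one : emb 1 = 1 := by
  unfold emb; exact map_one _

theorem emb_Xp (j : ℕ) : emb ((X : PowerSeries ℤ) ^ j) = X ^ j := by
  unfold emb
  rw [map_pow, PowerSeries.map_X]

theorem emb_dvd (j : ℕ) (f g : PowerSeries ℤ) (h : (X : PowerSeries ℤ) ^ j ∣ f - g) :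
    (X : Ser) ^ j ∣ emb f - emb g := by
  obtain ⟨c, hc⟩ := h
  exact ⟨emb c, by rw [← emb_sub, hc, emb_mul, emb_Xp]⟩

end ECOM

open ECOM

/-- **ECO.** -/
theorem specECO (hPSR : SpecPSR) (hROC : SpecROC) (hLSF : SpecLSF) (hPLZ : SpecPLZ)
    (hMZF : SpecMZF) (hGEX : SpecGEX) : SpecECO := by
  intro p m Q E H V U d N e hN he
  have hp := d.hp
  have hm := d.hm
  obtain ⟨hQ, hE, -⟩ := d.sys
  have hR : serR Q E = 1 + serY p + serY p * E * serR Q E := (hPSR p m Q E H V U d).2.2.1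
  obtain ⟨hO, hB⟩ := hROC p m Q E H V U d
  obtain ⟨G, hG⟩ := (hGEX p hp).1 e
  obtain ⟨-, hlin, hcong, -, -, -⟩ := hPLZ p hp
  have hM := (hMZF p e G hp hG).1
  -- the equation for `E`
  have hE' : E = X ^ 2 * (lam p m ((1 + E) * serR Q E) - 1) := by
    have h1 : (1 + E) * serR Q E = 1 + E + Q * (1 + E) ^ 2 := by
      unfold serR
      ring
    rw [h1]
    exact hE
  have he' : emb e = X ^ 2 * (emb ((1 + e) * Mz p e) - 1) := by
    have h1 := congrArg emb he
    rw [emb_add, emb_mul, emb_Xp] at h1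
    rw [mul_sub, mul_one, ← h1]
    ring
  have hlam : (X : Ser) ^ N ∣ lam p m ((1 + E) * serR Q E) -
      emb (psiL p ((1 + E) * serR Q E)) :=
    hLSF p m N _ hp hm hN hB.1 hO.2.2.2.2.1
  have key : ∀ j : ℕ, j ≤ N + 2 → X ^ j ∣ E - emb e := by
    intro j
    induction j using Nat.strong_induction_on with
    | _ j ih =>
      intro hj
      rcases Nat.lt_or_ge j 2 with h2 | h2
      · -- both are divisible by `X ^ 2`
        have h3 : (X : Ser) ^ 2 ∣ E - emb e := by
          rw [hE', he', ← mul_sub]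
          exact dvd_mul_right _ _
        exact (pow_dvd_pow _ (by omega)).trans h3
      · obtain ⟨i, rfl⟩ := Nat.exists_eq_add_of_le' h2
        have ihi := ih i (by omega) (by omega)
        have hiN : i ≤ N := by omega
        have hRi : X ^ i ∣ serR Q E - (1 + serY p) * G :=
          (hGEX p hp).2.1 e G E (serR Q E) i hG hR ihi
        have h4 : X ^ i ∣ (1 + E) * serR Q E - emb (1 + e) * ((1 + serY p) * G) := by
          have e1 : (1 + E) * serR Q E - emb (1 + e) * ((1 + serY p) * G) =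
              (E - emb e) * serR Q E + (1 + emb e) * (serR Q E - (1 + serY p) * G) := by
            rw [emb_add, emb_one]
            ring
          rw [e1]
          exact dvd_add (Dvd.dvd.mul_right ihi _) (Dvd.dvd.mul_left hRi _)
        have h5 := hcong _ _ i h4
        rw [hlin, hM] at h5
        have h6 := emb_dvd i _ _ h5
        have h7 : X ^ i ∣ lam p m ((1 + E) * serR Q E) - emb ((1 + e) * Mz p e) := by
          have e2 := dvd_add ((pow_dvd_pow _ hiN).trans hlam) h6
          rwa [sub_add_sub_cancel] at e2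
        have h8 : E - emb e = X ^ 2 * (lam p m ((1 + E) * serR Q E) - emb ((1 + e) * Mz p e)) := by
          rw [he']
          nth_rewrite 1 [hE']
          ring
        rw [h8, add_comm, pow_add]
        exact mul_dvd_mul_left _ h7
  exact key (N + 2) le_rfl

end Pool.Agent.Lib.MPba1bba.LC
end

section
/-!
# Module EEX: the series `e`
-/
namespace Pool.Agent.Lib.MPba1bba.LC

open Pool.Agent.Lib.MPba1bba Pool.Agent.Lib.MPba1bba.AS Pool.Agent.Lib.MPba1bba.LR PowerSeries

theorem specEEX (hFIX : SpecFIX) (hIVZ : SpecIVZ) : SpecEEX := by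
  intro p hp
  obtain ⟨e, he, hu⟩ := hFIX (fun e => X ^ 2 * ((1 + e) * Mz p e - 1)) (by
    intro N f g h
    obtain ⟨h1, -⟩ := hIVZ.2.2.2 p N f g hp h
    have h2 : X ^ N ∣ (1 + f) * Mz p f - (1 + g) * Mz p g := by
      have h3 : (1 + f) * Mz p f - (1 + g) * Mz p g =
          (f - g) * Mz p f + (1 + g) * (Mz p f - Mz p g) := by ring
      rw [h3]
      exact dvd_add (h.mul_right _) (h1.mul_left _)
    have h4 : X ^ 2 * ((1 + f) * Mz p f - 1) - X ^ 2 * ((1 + g) * Mz p g - 1) =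
        X ^ 2 * ((1 + f) * Mz p f - (1 + g) * Mz p g) := by ring
    show X ^ (N + 1) ∣ X ^ 2 * ((1 + f) * Mz p f - 1) - X ^ 2 * ((1 + g) * Mz p g - 1)
    rw [h4]
    have h5 : (X : PowerSeries ℤ) ^ (N + 1) ∣ X ^ (2 + N) := pow_dvd_pow _ (by omega)
    refine h5.trans ?_
    rw [pow_add]
    exact mul_dvd_mul_left _ h2)
  have key : ∀ f : PowerSeries ℤ, X ^ 2 * ((1 + f) * Mz p f - 1) = f ↔
      f + X ^ 2 = X ^ 2 * ((1 + f) * Mz p f) := by
    intro f
    constructor
    · intro h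
      calc f + X ^ 2 = X ^ 2 * ((1 + f) * Mz p f - 1) + X ^ 2 := by rw [h]
        _ = _ := by ring
    · intro h
      calc X ^ 2 * ((1 + f) * Mz p f - 1) = X ^ 2 * ((1 + f) * Mz p f) - X ^ 2 := by ring
        _ = f := by rw [← h]; ring
  exact ⟨e, (key e).1 he, fun e' he' => hu e' ((key e').2 he')⟩

end Pool.Agent.Lib.MPba1bba.LC
end

section
/-!
# MP_ba1bba_al, first coefficients in closed form: comparison of the growth series (module FCO)
-/
open scoped ENNReal

namespace Pool.Agent.Lib.MPba1bba.LC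

open Pool.Agent.Lib.MPba1bba Pool.Agent.Lib.MPba1bba.AS Pool.Agent.Lib.MPba1bba.LR PowerSeries Vec

namespace FCOM

theorem emb_mul (f g : PowerSeries ℤ) : emb (f * g) = emb f * emb g := by
  unfold emb; exact map_mul _ _ _

theorem emb_add (f g : PowerSeries ℤ) : emb (f + g) = emb f + emb g := by
  unfold emb; exact map_add _ _ _

theorem emb_sub (f g : PowerSeries ℤ) : emb (f - g) = emb f - emb g := by
  unfold emb; exact map_sub _ _ _

theorem emb_one : emb 1 = 1 := by
  unfold emb; exact map_one _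

end FCOM

theorem specFCO (hECO : SpecECO) (hHCO : SpecHCO) (hROC : SpecROC) (hPSF : SpecPSF)
    (hPLZ : SpecPLZ) (hMZF : SpecMZF) (hGEX : SpecGEX) (hPSR : SpecPSR) : SpecFCO := by
  intro p m Q E H V U d N e hN he
  have hp := d.hp
  have hm := d.hm
  obtain ⟨hQ, -, -⟩ := d.sys
  obtain ⟨hO, hB⟩ := hROC p m Q E H V U d
  have hE : X ^ N ∣ E - emb e := (pow_dvd_pow _ (by omega)).trans (hECO p m Q E H V U d N e hN he)
  have hH : X ^ N ∣ H - emb (Gz p e - 1 - e) :=
    (pow_dvd_pow _ (by omega)).trans (hHCO p m Q E H V U d N e hN he)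
  obtain ⟨G, hG⟩ := (hGEX p hp).1 e
  have hQ' : X ^ N ∣ Q - serY p * G := (hGEX p hp).2.2 e G E Q N hG hQ hE
  obtain ⟨hadd, hlin, hcong, hemb, -, -⟩ := hPLZ p hp
  have hM := (hMZF p e G hp hG).2
  have hembg : emb (Gz p e) = 1 + emb e + emb (Gz p e - 1 - e) := by
    rw [FCOM.emb_sub, FCOM.emb_sub, FCOM.emb_one]
    ring
  have hemb2 : emb (2 * Gz p e - (1 + e)) = 1 + emb e + 2 * emb (Gz p e - 1 - e) := by
    rw [two_mul, FCOM.emb_sub, FCOM.emb_add, FCOM.emb_add, FCOM.emb_sub, FCOM.emb_sub,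
      FCOM.emb_one]
    ring
  have h1 : X ^ N ∣ (1 + E + H) - emb (Gz p e) := by
    have e1 : (1 + E + H) - emb (Gz p e) = (E - emb e) + (H - emb (Gz p e - 1 - e)) := by
      rw [hembg]; ring
    rw [e1]
    exact dvd_add hE hH
  have h2 : X ^ N ∣ (1 + E + 2 * H) - emb (2 * Gz p e - (1 + e)) := by
    have e1 : (1 + E + 2 * H) - emb (2 * Gz p e - (1 + e)) =
        (E - emb e) + 2 * (H - emb (Gz p e - 1 - e)) := by
      rw [hemb2]; ring
    rw [e1]
    exact dvd_add hE (Dvd.dvd.mul_left hH _)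
  have h3 : X ^ N ∣ Q * (1 + E + H) ^ 2 - emb (Gz p e ^ 2) * (serY p * G) := by
    have e1 : Q * (1 + E + H) ^ 2 - emb (Gz p e ^ 2) * (serY p * G) =
        (Q - serY p * G) * (1 + E + H) ^ 2 +
          serY p * G * ((1 + E + H) + emb (Gz p e)) * ((1 + E + H) - emb (Gz p e)) := by
      rw [pow_two (Gz p e), FCOM.emb_mul]; ring
    rw [e1]
    exact dvd_add (Dvd.dvd.mul_right hQ' _) (Dvd.dvd.mul_left h1 _)
  have h4 : X ^ N ∣ (1 + E + 2 * H + Q * (1 + E + H) ^ 2) -
      (emb (2 * Gz p e - (1 + e)) + emb (Gz p e ^ 2) * (serY p * G)) := by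
    rw [add_sub_add_comm]
    exact dvd_add h2 h3
  have h5 := hcong _ _ N h4
  rw [hadd (emb (2 * Gz p e - (1 + e))), hemb, hlin, hM] at h5
  have h6 := hPSF p m N _ hp hm hN hB.2.2 hO.2.2.2.2.2.2
  have h7 : Sz p e = Dz p * ((2 * Gz p e - (1 + e)) * Lz p + Gz p e ^ 2 * Nz p e) := rfl
  rw [h7]
  have h8 := dvd_add h6 (Dvd.dvd.mul_left h5 (Dz p))
  rwa [mul_sub, sub_add_sub_cancel] at h8

end Pool.Agent.Lib.MPba1bba.LC
end

section
/-!
# MP_ba1bba_al, LC: module FIX (helper42): fixed points of contractions of `ℤ⟦X⟧`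
-/
namespace Pool.Agent.Lib.MPba1bba.LC

open PowerSeries

namespace FIXh

/-- Two power series congruent modulo all powers of `X` are equal. -/
theorem eq_of_all_dvd {f g : PowerSeries ℤ} (h : ∀ N : ℕ, (X : PowerSeries ℤ) ^ N ∣ f - g) : f = g := by
  ext n
  have := (PowerSeries.X_pow_dvd_iff.1 (h (n + 1))) n (Nat.lt_succ_self n)
  rw [map_sub] at this
  exact sub_eq_zero.1 this

theorem iter_dvd (Φ : PowerSeries ℤ → PowerSeries ℤ)
    (hΦ : ∀ (N : ℕ) (f g : PowerSeries ℤ), X ^ N ∣ f - g → X ^ (N + 1) ∣ Φ f - Φ g) (f g : PowerSeries ℤ) :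
    ∀ N : ℕ, (X : PowerSeries ℤ) ^ N ∣ Φ^[N] f - Φ^[N] g := by
  intro N
  induction N with
  | zero => simp
  | succ N ih =>
    rw [Function.iterate_succ_apply', Function.iterate_succ_apply']
    exact hΦ N _ _ ih

end FIXh

/-- **FIX**. -/
theorem specFIX : SpecFIX := by
  intro Φ hΦ
  have key : ∀ (n k : ℕ), (X : PowerSeries ℤ) ^ n ∣ Φ^[n + k] 0 - Φ^[n] 0 := by
    intro n k
    rw [Function.iterate_add_apply]
    exact FIXh.iter_dvd Φ hΦ _ _ n
  let f : PowerSeries ℤ := PowerSeries.mk fun n => PowerSeries.coeff n (Φ^[n + 1] 0)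
  have hf : ∀ N : ℕ, (X : PowerSeries ℤ) ^ N ∣ f - Φ^[N] 0 := by
    intro N
    rw [PowerSeries.X_pow_dvd_iff]
    intro m hm
    obtain ⟨k, rfl⟩ : ∃ k, N = (m + 1) + k := ⟨N - (m + 1), by omega⟩
    have h1 := (PowerSeries.X_pow_dvd_iff.1 (key (m + 1) k)) m (Nat.lt_succ_self m)
    rw [map_sub] at h1 ⊢
    have h2 : PowerSeries.coeff m f = PowerSeries.coeff m (Φ^[m + 1] 0) := by
      show PowerSeries.coeff m (PowerSeries.mk fun n => PowerSeries.coeff n (Φ^[n + 1] 0)) = _
      rw [PowerSeries.coeff_mk]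
    rw [h2]
    linarith
  have hfix : Φ f = f := by
    apply FIXh.eq_of_all_dvd
    intro N
    have h1 : (X : PowerSeries ℤ) ^ (N + 1) ∣ Φ f - Φ^[N + 1] 0 := by
      rw [Function.iterate_succ_apply']
      exact hΦ N _ _ (hf N)
    have h2 := hf (N + 1)
    have h3 : (X : PowerSeries ℤ) ^ (N + 1) ∣ Φ f - f := by
      have := dvd_sub h1 h2
      have e : Φ f - Φ^[N + 1] 0 - (f - Φ^[N + 1] 0) = Φ f - f := by ring
      rwa [e] at this
    exact dvd_trans (pow_dvd_pow _ (Nat.le_succ N)) h3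
  refine ⟨f, hfix, ?_⟩
  intro g hg
  apply FIXh.eq_of_all_dvd
  intro N
  induction N with
  | zero => simp
  | succ N ih =>
    have := hΦ N _ _ ih
    rwa [hg, hfix] at this

end Pool.Agent.Lib.MPba1bba.LC
end

section
/-!
# Module GEX: units in `Ser`
-/
namespace Pool.Agent.Lib.MPba1bba.LC

open Pool.Agent.Lib.MPba1bba Pool.Agent.Lib.MPba1bba.AS Pool.Agent.Lib.MPba1bba.LR PowerSeries

namespace GEXM

theorem serY_const (p : ℕ) : PowerSeries.constantCoeff (serY p) = 0 := by
  unfold serY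
  rw [map_sum]
  refine Finset.sum_eq_zero fun i hi => ?_
  rw [Finset.mem_Ioo] at hi
  rw [← PowerSeries.coeff_zero_eq_constantCoeff_apply, PowerSeries.coeff_monomial, if_neg]
  omega

theorem inv_exists (A : Ser) (h : PowerSeries.constantCoeff A = 0) :
    ∃ B : Ser, (1 - A) * B = 1 := by
  refine ⟨PowerSeries.invOfUnit (1 - A) 1, PowerSeries.mul_invOfUnit _ _ ?_⟩
  rw [map_sub, map_one, h, sub_zero, Units.val_one]

theorem compare (Y A E F R H : Ser) (N : ℕ) (hY : PowerSeries.constantCoeff Y = 0)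
    (hR : R = A + Y * E * R) (hH : H = A + F * Y * H) (h : X ^ N ∣ E - F) : X ^ N ∣ R - H := by
  obtain ⟨B, hB⟩ := inv_exists (Y * E) (by rw [map_mul, hY, zero_mul])
  have h1 : (1 - Y * E) * (R - H) = Y * (E - F) * H := by
    have h2 : R - Y * E * R = A := sub_eq_of_eq_add hR
    have h3 : H - F * Y * H = A := sub_eq_of_eq_add hH
    calc (1 - Y * E) * (R - H) = (R - Y * E * R) - (H - F * Y * H) + Y * (E - F) * H := by ring
      _ = Y * (E - F) * H := by rw [h2, h3, sub_self, zero_add]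
  have h2 : R - H = (E - F) * (B * Y * H) := by
    calc R - H = ((1 - Y * E) * B) * (R - H) := by rw [hB, one_mul]
      _ = B * ((1 - Y * E) * (R - H)) := by ring
      _ = (E - F) * (B * Y * H) := by rw [h1]; ring
  rw [h2]
  exact h.mul_right _

end GEXM

open GEXM

theorem specGEX : SpecGEX := by
  intro p hp
  refine ⟨fun e => ?_, fun e G E R' N hG hR h => ?_, fun e G E Q N hG hQ h => ?_⟩
  · obtain ⟨B, hB⟩ := inv_exists (emb e * serY p) (by rw [map_mul, serY_const, mul_zero])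
    refine ⟨B, ?_⟩
    calc B = (1 - emb e * serY p) * B + emb e * serY p * B := by ring
      _ = 1 + emb e * serY p * B := by rw [hB]
  · refine compare (serY p) (1 + serY p) E (emb e) R' ((1 + serY p) * G) N (serY_const p) hR ?_ h
    calc (1 + serY p) * G = (1 + serY p) * (1 + emb e * serY p * G) := by rw [← hG]
      _ = _ := by ring
  · refine compare (serY p) (serY p) E (emb e) Q (serY p * G) N (serY_const p) hQ ?_ h
    calc serY p * G = serY p * (1 + emb e * serY p * G) := by rw [← hG]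
      _ = _ := by ring

end Pool.Agent.Lib.MPba1bba.LC
end

section
/-!
# MP_ba1bba_al, first coefficients in closed form: comparison of `H`
-/
open scoped ENNReal

namespace Pool.Agent.Lib.MPba1bba.LC

open Pool.Agent.Lib.MPba1bba Pool.Agent.Lib.MPba1bba.AS Pool.Agent.Lib.MPba1bba.LR PowerSeries Vec

namespace HCOM

theorem emb_mul (f g : PowerSeries ℤ) : emb (f * g) = emb f * emb g := by
  unfold emb; exact map_mul _ _ _

theorem emb_sub (f g : PowerSeries ℤ) : emb (f - g) = emb f - emb g := by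
  unfold emb; exact map_sub _ _ _

theorem emb_one : emb 1 = 1 := by
  unfold emb; exact map_one _

theorem emb_X : emb (X : PowerSeries ℤ) = X := by
  unfold emb; exact PowerSeries.map_X _

theorem emb_dvd (j : ℕ) (f g : PowerSeries ℤ) (h : (X : PowerSeries ℤ) ^ j ∣ f - g) :
    (X : Ser) ^ j ∣ emb f - emb g := by
  obtain ⟨c, hc⟩ := h
  refine ⟨emb c, ?_⟩
  rw [← emb_sub, hc, emb_mul]
  congr 1
  unfold emb
  rw [map_pow, PowerSeries.map_X]

end HCOM

theorem specHCO (hECO : SpecECO) (hROC : SpecROC) (hLSF : SpecLSF) (hPLZ : SpecPLZ)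
    (hMZF : SpecMZF) (hGEX : SpecGEX) (hIVZ : SpecIVZ) (hPSR : SpecPSR) : SpecHCO := by
  intro p m Q E H V U d N e hN he
  have hp := d.hp
  have hm := d.hm
  obtain ⟨-, -, hH⟩ := d.sys
  have hR : serR Q E = 1 + serY p + serY p * E * serR Q E := (hPSR p m Q E H V U d).2.2.1
  obtain ⟨hO, hB⟩ := hROC p m Q E H V U d
  have hE := hECO p m Q E H V U d N e hN he
  obtain ⟨G, hG⟩ := (hGEX p hp).1 e
  have hR' : X ^ (N + 2) ∣ serR Q E - (1 + serY p) * G :=
    (hGEX p hp).2.1 e G E (serR Q E) (N + 2) hG hR hE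
  obtain ⟨-, hlin, hcong, -, -, -⟩ := hPLZ p hp
  have hM := (hMZF p e G hp hG).1
  have hc := (hIVZ.2.2.1 p 0 (Mz p e) hp).2.2.2.1
  have hinv := (hIVZ.1 _ hc).1
  -- `(1 - X M) g = 1 + e`
  have hg : (1 - X * Mz p e) * Gz p e = 1 + e := by
    unfold Gz
    rw [mul_left_comm, hinv, mul_one]
  have hh : Gz p e - 1 - e = X * (Gz p e * Mz p e) := by
    linear_combination hg
  have hembg : emb (Gz p e) = 1 + emb e + emb (Gz p e - 1 - e) := by
    rw [HCOM.emb_sub, HCOM.emb_sub, HCOM.emb_one]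
    ring
  have key : ∀ j : ℕ, j ≤ N + 1 → X ^ j ∣ H - emb (Gz p e - 1 - e) := by
    intro j
    induction j with
    | zero => intro _; simp
    | succ j ih =>
      intro hj
      have ihj := ih (by omega)
      have hjN : j ≤ N := by omega
      have hEj : X ^ j ∣ E - emb e := (pow_dvd_pow _ (by omega)).trans hE
      have hRj : X ^ j ∣ serR Q E - (1 + serY p) * G := (pow_dvd_pow _ (by omega)).trans hR'
      -- `F ≡ F₀`
      have h1 : X ^ j ∣ (1 + E + H) - emb (Gz p e) := by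
        have e1 : (1 + E + H) - emb (Gz p e) = (E - emb e) + (H - emb (Gz p e - 1 - e)) := by
          rw [hembg]; ring
        rw [e1]
        exact dvd_add hEj ihj
      have h2 : X ^ j ∣ serR Q E * (1 + E + H) - emb (Gz p e) * ((1 + serY p) * G) := by
        have e2 : serR Q E * (1 + E + H) - emb (Gz p e) * ((1 + serY p) * G) =
            serR Q E * ((1 + E + H) - emb (Gz p e)) +
              emb (Gz p e) * (serR Q E - (1 + serY p) * G) := by ring
        rw [e2]
        exact dvd_add (Dvd.dvd.mul_left h1 _) (Dvd.dvd.mul_left hRj _)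
      have h3 := hcong _ _ j h2
      rw [hlin, hM] at h3
      have h4 := HCOM.emb_dvd j _ _ h3
      have h5 : X ^ j ∣ lam p m (serR Q E * (1 + E + H)) - emb (psiL p (serR Q E * (1 + E + H))) :=
        (pow_dvd_pow _ hjN).trans (hLSF p m N _ hp hm hN hB.2.1 hO.2.2.2.2.2.1)
      have h6 : X ^ j ∣ lam p m (serR Q E * (1 + E + H)) - emb (Gz p e * Mz p e) := by
        have e3 := dvd_add h5 h4
        rwa [sub_add_sub_cancel] at e3
      have h7 : H - emb (Gz p e - 1 - e) =
          X * (lam p m (serR Q E * (1 + E + H)) - emb (Gz p e * Mz p e)) := by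
        rw [hh, HCOM.emb_mul, HCOM.emb_X, mul_sub]
        congr 1
      rw [h7, pow_succ, mul_comm]
      exact mul_dvd_mul_left _ h6
  exact key (N + 1) le_rfl

end Pool.Agent.Lib.MPba1bba.LC
end

section
/-!
# MP_ba1bba_al, LC: inverses of power series
-/
namespace Pool.Agent.Lib.MPba1bba.LC

open Pool.Agent.Lib.MPba1bba PowerSeries

namespace IVZM

theorem mul_iv {f : PowerSeries ℤ} (h : constantCoeff f = 1) : f * iv f = 1 := by
  unfold iv
  exact PowerSeries.mul_invOfUnit f 1 (by simpa using h)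

theorem cc_iv {f : PowerSeries ℤ} (h : constantCoeff f = 1) : constantCoeff (iv f) = 1 := by
  have h1 := congrArg (constantCoeff) (mul_iv h)
  rw [map_mul, h, one_mul, map_one] at h1
  exact h1

theorem iv_unique {f h : PowerSeries ℤ} (hf : constantCoeff f = 1) (e : f * h = 1) : h = iv f := by
  have h1 := mul_iv hf
  calc h = h * (f * iv f) := by rw [h1, mul_one]
    _ = (f * h) * iv f := by ring
    _ = iv f := by rw [e, one_mul]

theorem iv_congr {f g : PowerSeries ℤ} {N : ℕ} (hf : constantCoeff f = 1) (hg : constantCoeff g = 1)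
    (h : (X : PowerSeries ℤ) ^ N ∣ f - g) : (X : PowerSeries ℤ) ^ N ∣ iv f - iv g := by
  have e : iv f - iv g = (f - g) * (-(iv f * iv g)) := by
    have h1 := mul_iv hf
    have h2 := mul_iv hg
    linear_combination (iv g) * h1 - (iv f) * h2
  rw [e]
  exact Dvd.dvd.mul_right h _

theorem cc_gz (n : ℕ) : constantCoeff (gz n) = 0 := by
  unfold gz
  rw [map_sum]
  refine Finset.sum_eq_zero fun i _ => ?_
  rw [map_pow, constantCoeff_X, zero_pow (Nat.succ_ne_zero i)]

theorem cc_cz (p t : ℕ) : constantCoeff (cz p t) = 0 := by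
  unfold cz
  rw [map_add, cc_gz, cc_gz, add_zero]

theorem cc_u (p t : ℕ) (e : PowerSeries ℤ) : constantCoeff (1 - e * cz p t) = 1 := by
  rw [map_sub, map_one, map_mul, cc_cz, mul_zero, sub_zero]

theorem dvd_mul_sub {N : ℕ} {a b c d : PowerSeries ℤ} (h1 : (X : PowerSeries ℤ) ^ N ∣ a - b)
    (h2 : (X : PowerSeries ℤ) ^ N ∣ c - d) : (X : PowerSeries ℤ) ^ N ∣ a * c - b * d := by
  have e : a * c - b * d = (a - b) * c + b * (c - d) := by ring
  rw [e]
  exact dvd_add (Dvd.dvd.mul_right h1 _) (Dvd.dvd.mul_left h2 _)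

theorem dvd_add_sub {N : ℕ} {a b c d : PowerSeries ℤ} (h1 : (X : PowerSeries ℤ) ^ N ∣ a - b)
    (h2 : (X : PowerSeries ℤ) ^ N ∣ c - d) : (X : PowerSeries ℤ) ^ N ∣ (a + c) - (b + d) := by
  have e : (a + c) - (b + d) = (a - b) + (c - d) := by ring
  rw [e]
  exact dvd_add h1 h2

theorem u_congr {p t N : ℕ} {e e' : PowerSeries ℤ} (h : (X : PowerSeries ℤ) ^ N ∣ e - e') :
    (X : PowerSeries ℤ) ^ N ∣ uz p t e - uz p t e' := by
  unfold uz
  refine iv_congr (cc_u p t e) (cc_u p t e') ?_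
  have e1 : (1 - e * cz p t) - (1 - e' * cz p t) = (e - e') * (-(cz p t)) := by ring
  rw [e1]
  exact Dvd.dvd.mul_right h _

theorem refl_dvd {N : ℕ} (a : PowerSeries ℤ) : (X : PowerSeries ℤ) ^ N ∣ a - a := by
  rw [sub_self]
  exact dvd_zero _

theorem W_congr {p N : ℕ} {e e' : PowerSeries ℤ} (h : (X : PowerSeries ℤ) ^ N ∣ e - e') :
    (X : PowerSeries ℤ) ^ N ∣ Wz p e - Wz p e' := by
  unfold Wz
  rw [← Finset.sum_sub_distrib]
  refine Finset.dvd_sum fun t _ => ?_
  exact dvd_mul_sub (dvd_mul_sub (refl_dvd _) (u_congr h)) (u_congr h)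

end IVZM

open IVZM in
theorem specIVZ : SpecIVZ := by
  refine ⟨fun f hf => ⟨mul_iv hf, cc_iv hf, fun h e => iv_unique hf e⟩,
    fun f g N hf hg h => iv_congr hf hg h, fun p t e hp => ⟨cc_cz p t, cc_u p t e, ?_, ?_, ?_⟩,
    fun p N e e' _ h => ⟨?_, ?_⟩⟩
  · rw [map_sub, map_one, map_pow, constantCoeff_X, zero_pow (by omega), sub_zero]
  · rw [map_sub, map_one, map_mul, constantCoeff_X, zero_mul, sub_zero]
  · rw [map_sub, map_one, map_mul, map_pow, constantCoeff_X, zero_pow (by norm_num), zero_mul, sub_zero]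
  · unfold Mz
    exact dvd_add_sub (dvd_mul_sub (refl_dvd _) (u_congr h))
      (dvd_mul_sub (dvd_add_sub (refl_dvd _) h) (W_congr h))
  · unfold Nz
    exact dvd_add_sub (dvd_mul_sub (refl_dvd _) (u_congr h)) (W_congr h)

end Pool.Agent.Lib.MPba1bba.LC
end

section
/-!
# MP_ba1bba_al, first coefficients in closed form: module LSC (the section of a bounded state in low degree)
-/
open scoped ENNReal

namespace Pool.Agent.Lib.MPba1bba.LC

open Pool.Agent.Lib.MPba1bba Pool.Agent.Lib.MPba1bba.AS Pool.Agent.Lib.MPba1bba.LR PowerSeries Vec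

namespace LSCM

theorem key (hSMB : SpecSMB) {p m : ℕ} (hp : 2 ≤ p) (hm : 2 ≤ m) {s : Multiset ℤ} (hs : bs p s)
    {j : ℕ} (hj : 2 * j + rh p s ≤ p * (m - 1)) {k k' : ℤ} (h1 : bfun p s k ≤ j)
    (h2 : bfun p s k' ≤ j) (h3 : (m : ℤ) ∣ k - k') : k = k' := by
  by_contra hne
  have h4 := hSMB p s hs k k'
  have h5 : m ≤ (k - k').natAbs := by
    have : m ∣ (k - k').natAbs := Int.natCast_dvd.1 h3
    exact Nat.le_of_dvd (Int.natAbs_pos.2 (sub_ne_zero.2 hne)) this
  have h6 : p * m ≤ p * (k - k').natAbs := Nat.mul_le_mul_left p h5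
  have h7 : p * (m - 1) < p * m := Nat.mul_lt_mul_of_pos_left (by omega) (by omega)
  omega

theorem cmin_ex (p m : ℕ) (s : Multiset ℤ) (r : ℕ) :
    ∃ i : ℤ, cmin p m s r = bfun p s (r + m * i) := by
  obtain ⟨i, hi⟩ := Nat.sInf_mem (Set.range_nonempty fun j : ℤ => bfun p s (r + m * j))
  exact ⟨i, hi.symm⟩

theorem cmin_le (p m : ℕ) (s : Multiset ℤ) (r : ℕ) (i : ℤ) :
    cmin p m s r ≤ bfun p s (r + m * i) :=
  ciInf_le (OrderBot.bddBelow _) i

theorem nsmul_single (n : ℕ) :
    n • (AddMonoidAlgebra.single (0 : Multiset ℤ) (1 : ℤ) : SR) =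
      AddMonoidAlgebra.single (0 : Multiset ℤ) (n : ℤ) := by
  induction n with
  | zero => simp
  | succ n ih =>
    rw [succ_nsmul, ih, ← AddMonoidAlgebra.single_add]
    push_cast
    rfl

end LSCM

open LSCM in
theorem specLSC (hSMB : SpecSMB) (hRLM : SpecRLM) (hSMC : SpecSMC) : SpecLSC := by
  intro p m hp hm s hs j hj
  have hone : ∀ r < m, cmin p m s r = j → sml p m s r = 0 := by
    intro r hr hc
    by_contra hne
    obtain ⟨x, hx⟩ := Multiset.exists_mem_of_ne_zero hne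
    have hb := (hSMC p m hp hm).1 s r
    have h1 := hRLM p m hp hm s hs r
    have h2 : 1 ≤ rh p (sml p m s r) := by
      have h3 : p - x.natAbs ≤ rh p (sml p m s r) := by
        unfold rh
        exact Multiset.single_le_sum (by simp) _ (Multiset.mem_map_of_mem _ hx)
      have := hb x hx
      omega
    have h3 : 1 ≤ Multiset.card (sml p m s r) := Multiset.card_pos.2 hne
    have h4 : p * (m - 1) * 1 ≤ p * (m - 1) * Multiset.card (sml p m s r) :=
      Nat.mul_le_mul_left _ h3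
    omega
  refine ⟨hone, ?_⟩
  have hm0 : (0 : ℤ) < m := by omega
  have hcard : lco p s j = ((Finset.range m).filter fun r => cmin p m s r = j).card := by
    unfold lco
    rw [← Fintype.card_coe, ← Nat.card_eq_fintype_card]
    have hfun : ∀ k : {k : ℤ // bfun p s k = j},
        ((k.1 % (m : ℤ)).toNat) ∈ (Finset.range m).filter fun r => cmin p m s r = j := by
      rintro ⟨k, hk⟩
      have h3 := Int.emod_lt_of_pos k hm0
      have h4 := Int.emod_nonneg k hm0.ne'
      have h5 := Int.emod_add_mul_ediv k m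
      rw [Finset.mem_filter, Finset.mem_range]
      refine ⟨by show (k % (m : ℤ)).toNat < m; omega, ?_⟩
      show cmin p m s (k % (m : ℤ)).toNat = j
      have e : (((k % (m : ℤ)).toNat : ℕ) : ℤ) = k % m := Int.toNat_of_nonneg h4
      obtain ⟨i, hi⟩ := cmin_ex p m s (k % (m : ℤ)).toNat
      have h6 := cmin_le p m s (k % (m : ℤ)).toNat (k / m)
      rw [e, h5, hk] at h6
      have h7 : k = ((k % (m : ℤ)).toNat : ℕ) + m * i := by
        refine key hSMB hp hm hs hj hk.le (hi ▸ h6) ?_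
        refine ⟨k / m - i, ?_⟩
        rw [e]
        linear_combination -h5
      rw [hi, ← h7, hk]
    refine Nat.card_eq_of_bijective (fun k => ⟨(k.1 % (m : ℤ)).toNat, hfun k⟩) ⟨?_, ?_⟩
    · rintro ⟨k, hk⟩ ⟨k', hk'⟩ h
      have h1 : (k % (m : ℤ)).toNat = (k' % (m : ℤ)).toNat := congrArg Subtype.val h
      have h4 := Int.emod_nonneg k hm0.ne'
      have h4' := Int.emod_nonneg k' hm0.ne'
      have h2 : k % (m : ℤ) = k' % (m : ℤ) := by omega
      apply Subtype.ext
      have h5 : k' ≡ k [ZMOD (m : ℤ)] := h2.symm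
      exact key hSMB hp hm hs hj hk.le hk'.le h5.dvd
    · rintro ⟨r, hr⟩
      have hr' := Finset.mem_filter.1 hr
      obtain ⟨i, hi⟩ := cmin_ex p m s r
      refine ⟨⟨r + m * i, by rw [← hi]; exact hr'.2⟩, ?_⟩
      apply Subtype.ext
      show ((((r : ℤ) + m * i) % (m : ℤ)).toNat) = r
      have h1 := Finset.mem_range.1 hr'.1
      rw [Int.add_mul_emod_self_left, Int.emod_eq_of_lt (by omega) (by omega)]
      simp
  rw [hcard]
  unfold lamB
  rw [map_sum, ← nsmul_single, ← Finset.sum_const, Finset.sum_filter]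
  refine Finset.sum_congr rfl fun r hr => ?_
  rw [PowerSeries.coeff_monomial]
  by_cases h : cmin p m s r = j
  · rw [if_pos h.symm, if_pos h, hone r (Finset.mem_range.1 hr) h]
  · rw [if_neg (fun h' => h h'.symm), if_neg h]

end Pool.Agent.Lib.MPba1bba.LC
end

section
/-!
# MP_ba1bba_al, first coefficients in closed form: module LSF (the section operator in low degree)
-/
namespace Pool.Agent.Lib.MPba1bba.LC

open Pool.Agent.Lib.MPba1bba Pool.Agent.Lib.MPba1bba.AS Pool.Agent.Lib.MPba1bba.LR PowerSeries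

namespace LSFM

theorem castSR (c n : ℤ) :
    c • (AddMonoidAlgebra.single (0 : Multiset ℤ) n : SR) = Int.castRingHom SR (c * n) := by
  have h : (AddMonoidAlgebra.single (0 : Multiset ℤ) n : SR) = ((n : ℤ) : SR) := by
    rw [AddMonoidAlgebra.intCast_def]
    simp
  rw [h, map_mul, zsmul_eq_mul]
  rfl

end LSFM

open LSFM

/-- **LSF**. The section operator in low degree. -/
theorem specLSF (hLSC : SpecLSC) : SpecLSF := by
  intro p m N F hp hm hN hB hO
  rw [PowerSeries.X_pow_dvd_iff]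
  intro i hi
  rw [map_sub, sub_eq_zero]
  unfold emb
  rw [PowerSeries.coeff_map]
  unfold lam psiL
  rw [PowerSeries.coeff_mk, PowerSeries.coeff_mk, map_sum]
  refine Finset.sum_congr rfl fun ij hij => ?_
  rw [Finset.HasAntidiagonal.mem_antidiagonal] at hij
  unfold Finsupp.sum
  rw [map_sum]
  refine Finset.sum_congr rfl fun s hs => ?_
  have hne : (PowerSeries.coeff ij.1 F).coeff s ≠ 0 := Finsupp.mem_support_iff.mp hs
  have hbs : bs p s := hB _ _ hne
  have hrh : rh p s ≤ 2 * ij.1 := hO _ _ hne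
  have h2 := (hLSC p m hp hm s hbs ij.2 (by omega)).2
  show ((PowerSeries.coeff ij.1 F).coeff s) • (PowerSeries.coeff ij.2 (lamB p m s)) = _
  rw [h2]
  exact castSR _ _

end Pool.Agent.Lib.MPba1bba.LC
end

section
/-! # MP_ba1bba_al, LC: module MZF (helper85) -/
open scoped ENNReal

namespace Pool.Agent.Lib.MPba1bba.LC

open Pool.Agent.Lib.MPba1bba Pool.Agent.Lib.MPba1bba.AS Pool.Agent.Lib.MPba1bba.LR PowerSeries

namespace MZFM

/-- `X` divides the letter series. -/
lemma X_dvd_serY (p : ℕ) (hp : 2 ≤ p) : (X : Ser) ∣ serY p := by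
  unfold serY
  refine Finset.dvd_sum fun i hi => ?_
  have hi' := Finset.mem_Ioo.1 hi
  rw [PowerSeries.X_dvd_iff]
  rw [← PowerSeries.coeff_zero_eq_constantCoeff_apply, PowerSeries.coeff_monomial, if_neg]
  have : 1 ≤ min i (p - i) := by omega
  omega

lemma X_dvd_gz (n : ℕ) : (X : PowerSeries ℤ) ∣ gz n := by
  unfold gz
  refine Finset.dvd_sum fun i _ => ?_
  exact dvd_pow_self X (by omega)

lemma X_dvd_cz (p t : ℕ) : (X : PowerSeries ℤ) ∣ cz p t :=
  dvd_add (X_dvd_gz _) (X_dvd_gz _)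

/-- Truncated geometric series in a commutative ring. -/
lemma geo_dvd {R : Type*} [CommRing R] (x a u : R) (hx : x ∣ a) (hu : u = 1 + a * u) :
    ∀ K : ℕ, x ^ K ∣ (∑ n ∈ Finset.range K, a ^ n) - u := by
  intro K
  induction K with
  | zero => simp
  | succ K ih =>
    have h1 : (∑ n ∈ Finset.range (K + 1), a ^ n) - u = a * ((∑ n ∈ Finset.range K, a ^ n) - u) := by
      rw [Finset.sum_range_succ', mul_sub, Finset.mul_sum]
      have h2 : ∀ n ∈ Finset.range K, a ^ (n + 1) = a * a ^ n := fun n _ => by ring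
      rw [Finset.sum_congr rfl h2, pow_zero]
      linear_combination (-1 : R) * hu
    rw [h1, pow_succ, mul_comm]
    exact mul_dvd_mul hx ih |>.trans (by rw [mul_comm])

/-- The truncated double geometric series. -/
lemma dbl_dvd {R : Type*} [CommRing R] (x e c c' u u' : R) (hx : x ∣ c) (hx' : x ∣ c')
    (hu : u = 1 + e * c * u) (hu' : u' = 1 + e * c' * u') :
    ∀ K : ℕ, x ^ K ∣ (∑ n ∈ Finset.range K, e ^ n *
      ∑ l ∈ Finset.range (n + 1), c ^ l * c' ^ (n + 1 - 1 - l)) - u * u' := by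
  intro K
  induction K with
  | zero => simp
  | succ K ih =>
    set T : ℕ → R := fun K => ∑ n ∈ Finset.range K, e ^ n *
      ∑ l ∈ Finset.range (n + 1), c ^ l * c' ^ (n + 1 - 1 - l) with hT
    have hs : ∀ n : ℕ, (∑ l ∈ Finset.range (n + 1), c ^ l * c' ^ (n + 1 - 1 - l)) =
        c * (∑ l ∈ Finset.range n, c ^ l * c' ^ (n - 1 - l)) + c' ^ n := by
      intro n
      rw [Finset.sum_range_succ', Finset.mul_sum]
      congr 1
      · refine Finset.sum_congr rfl fun l hl => ?_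
        have h3 : n + 1 - 1 - (l + 1) = n - 1 - l := by omega
        rw [h3]; ring
      · simp
    have h1 : T (K + 1) = e * c * T K + ∑ n ∈ Finset.range (K + 1), (e * c') ^ n := by
      have h2 : T (K + 1) = ∑ n ∈ Finset.range (K + 1),
          (e ^ n * (c * ∑ l ∈ Finset.range n, c ^ l * c' ^ (n - 1 - l)) + (e * c') ^ n) := by
        rw [hT]
        refine Finset.sum_congr rfl fun n _ => ?_
        rw [hs n, mul_pow]; ring
      rw [h2, Finset.sum_add_distrib]
      congr 1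
      rw [Finset.sum_range_succ', hT]
      simp only [Finset.range_zero, Finset.sum_empty, mul_zero, add_zero]
      rw [Finset.mul_sum]
      refine Finset.sum_congr rfl fun n _ => ?_
      ring
    have h4 : T (K + 1) - u * u' = e * c * (T K - u * u') +
        ((∑ n ∈ Finset.range (K + 1), (e * c') ^ n) - u') := by
      rw [h1]
      linear_combination (-u' : R) * hu
    have h5 : x ^ (K + 1) ∣ e * c * (T K - u * u') := by
      rw [pow_succ, mul_comm (x ^ K) x]
      exact mul_dvd_mul (dvd_mul_of_dvd_right hx e) ih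
    have h6 := geo_dvd x (e * c') u' (dvd_mul_of_dvd_right hx' e) hu' (K + 1)
    have h7 : x ^ (K + 1) ∣ T (K + 1) - u * u' := by
      rw [h4]; exact dvd_add h5 h6
    exact h7

end MZFM

open MZFM in
theorem specMZF (hLNZ : SpecLNZ) (hPLZ : SpecPLZ) (hIVZ : SpecIVZ) : SpecMZF := by
  intro p e G hp hG
  obtain ⟨hadd, hlin, hcon, hemb, -, -⟩ := hPLZ p hp
  obtain ⟨hiv, -, hcc, -⟩ := hIVZ
  have hu : ∀ t, uz p t e = 1 + e * cz p t * uz p t e := by
    intro t
    have h := (hiv (1 - e * cz p t) (hcc p t e hp).2.1).1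
    unfold uz
    linear_combination h
  have h0 : psiL p 0 = 0 := by
    have h := hadd 0 0
    rw [add_zero] at h
    linear_combination (-1 : PowerSeries ℤ) * h
  have hsum : ∀ (K : ℕ) (F : ℕ → Ser),
      psiL p (∑ n ∈ Finset.range K, F n) = ∑ n ∈ Finset.range K, psiL p (F n) := by
    intro K F
    induction K with
    | zero => simpa using h0
    | succ K ih => rw [Finset.sum_range_succ, Finset.sum_range_succ, hadd, ih]
  have hY := X_dvd_serY p hp
  have hembpow : ∀ n : ℕ, emb (e ^ n) = emb e ^ n := fun n => by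
    unfold emb; rw [map_pow]
  -- the expansion of `Y G`
  have hexp : ∀ K : ℕ, serY p * G = (∑ n ∈ Finset.range K, emb (e ^ n) * serY p ^ (n + 1)) +
      serY p * (emb e * serY p) ^ K * G := by
    intro K
    induction K with
    | zero => simp
    | succ K ih =>
      rw [Finset.sum_range_succ, hembpow K]
      have h1 : serY p * (emb e * serY p) ^ K * G = emb e ^ K * serY p ^ (K + 1) +
          serY p * (emb e * serY p) ^ (K + 1) * G := by
        calc serY p * (emb e * serY p) ^ K * G =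
            serY p * (emb e * serY p) ^ K * (1 + emb e * serY p * G) := by rw [← hG]
          _ = _ := by rw [mul_pow, mul_pow]; ring
      calc serY p * G = _ := ih
        _ = _ := by rw [h1]; ring
  have hN : psiL p (serY p * G) = Nz p e := by
    have hall : ∀ K : ℕ, (X : PowerSeries ℤ) ^ K ∣ psiL p (serY p * G) - Nz p e := by
      intro K
      have h1 : (X : PowerSeries ℤ) ^ K ∣ psiL p (serY p * (emb e * serY p) ^ K * G) := by
        have h2 : (X : Ser) ^ K ∣ serY p * (emb e * serY p) ^ K * G - 0 := by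
          rw [sub_zero]
          refine dvd_mul_of_dvd_left (dvd_mul_of_dvd_right ?_ _) _
          exact pow_dvd_pow_of_dvd (dvd_mul_of_dvd_right hY _) K
        have h3 := hcon _ _ K h2
        rwa [h0, sub_zero] at h3
      have h4 : psiL p (∑ n ∈ Finset.range K, emb (e ^ n) * serY p ^ (n + 1)) =
          Lz p * cz p 0 * (∑ n ∈ Finset.range K, (e * cz p 0) ^ n) +
          ∑ t ∈ Finset.range (p - 1), X ^ (p - 1 - t) * ∑ n ∈ Finset.range K, e ^ n *
            ∑ l ∈ Finset.range (n + 1), cz p (t + 1) ^ l * cz p t ^ (n + 1 - 1 - l) := by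
        rw [hsum]
        have h5 : ∀ n ∈ Finset.range K, psiL p (emb (e ^ n) * serY p ^ (n + 1)) =
            Lz p * cz p 0 * (e * cz p 0) ^ n + ∑ t ∈ Finset.range (p - 1), X ^ (p - 1 - t) *
              (e ^ n * ∑ l ∈ Finset.range (n + 1), cz p (t + 1) ^ l * cz p t ^ (n + 1 - 1 - l)) := by
          intro n _
          rw [hlin, hLNZ p (n + 1) hp, mul_add, Finset.mul_sum, mul_pow]
          congr 1
          · ring
          · refine Finset.sum_congr rfl fun t _ => ?_
            ring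
        rw [Finset.sum_congr rfl h5, Finset.sum_add_distrib, ← Finset.mul_sum, Finset.sum_comm]
        congr 1
        refine Finset.sum_congr rfl fun t _ => ?_
        rw [← Finset.mul_sum]
      have h6 := geo_dvd (X : PowerSeries ℤ) (e * cz p 0) (uz p 0 e)
        (dvd_mul_of_dvd_right (X_dvd_cz p 0) e) (hu 0) K
      have h7 : ∀ t ∈ Finset.range (p - 1), (X : PowerSeries ℤ) ^ K ∣
          X ^ (p - 1 - t) * ((∑ n ∈ Finset.range K, e ^ n *
            ∑ l ∈ Finset.range (n + 1), cz p (t + 1) ^ l * cz p t ^ (n + 1 - 1 - l)) -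
            uz p (t + 1) e * uz p t e) := fun t _ =>
        dvd_mul_of_dvd_right (dbl_dvd (X : PowerSeries ℤ) e (cz p (t + 1)) (cz p t)
          (uz p (t + 1) e) (uz p t e) (X_dvd_cz p (t + 1)) (X_dvd_cz p t) (hu (t + 1)) (hu t) K) _
      have h8 := Finset.dvd_sum h7
      have h9 : psiL p (serY p * G) - Nz p e =
          Lz p * cz p 0 * ((∑ n ∈ Finset.range K, (e * cz p 0) ^ n) - uz p 0 e) +
          (∑ t ∈ Finset.range (p - 1), X ^ (p - 1 - t) * ((∑ n ∈ Finset.range K, e ^ n *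
            ∑ l ∈ Finset.range (n + 1), cz p (t + 1) ^ l * cz p t ^ (n + 1 - 1 - l)) -
            uz p (t + 1) e * uz p t e)) + psiL p (serY p * (emb e * serY p) ^ K * G) := by
        have h10 : psiL p (serY p * G) = psiL p (∑ n ∈ Finset.range K,
            emb (e ^ n) * serY p ^ (n + 1)) + psiL p (serY p * (emb e * serY p) ^ K * G) := by
          rw [← hadd, ← hexp K]
        have h11 : (∑ t ∈ Finset.range (p - 1), X ^ (p - 1 - t) * ((∑ n ∈ Finset.range K, e ^ n *
            ∑ l ∈ Finset.range (n + 1), cz p (t + 1) ^ l * cz p t ^ (n + 1 - 1 - l)) -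
            uz p (t + 1) e * uz p t e)) = (∑ t ∈ Finset.range (p - 1), X ^ (p - 1 - t) *
            ∑ n ∈ Finset.range K, e ^ n * ∑ l ∈ Finset.range (n + 1),
              cz p (t + 1) ^ l * cz p t ^ (n + 1 - 1 - l)) - Wz p e := by
          unfold Wz
          rw [← Finset.sum_sub_distrib]
          refine Finset.sum_congr rfl fun t _ => ?_
          ring
        rw [h10, h4, h11]
        unfold Nz
        ring
      rw [h9]
      exact dvd_add (dvd_add (dvd_mul_of_dvd_right h6 _) h8) h1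
    have hz : psiL p (serY p * G) - Nz p e = 0 := by
      ext n
      have h := PowerSeries.X_pow_dvd_iff.1 (hall (n + 1)) n (by omega)
      rw [h, map_zero]
    exact sub_eq_zero.1 hz
  refine ⟨?_, hN⟩
  have hG1 : psiL p G = Lz p + e * Nz p e := by
    have h1 : G = emb 1 + emb e * (serY p * G) := by
      have h2 : emb 1 = (1 : Ser) := by unfold emb; rw [map_one]
      rw [h2, ← mul_assoc]; exact hG
    calc psiL p G = psiL p (emb 1 + emb e * (serY p * G)) := by rw [← h1]
      _ = _ := by rw [hadd, hemb, hlin, hN, one_mul]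
  have h1 : (1 + serY p) * G = G + serY p * G := by ring
  rw [h1, hadd, hG1, hN]
  unfold Mz Nz
  linear_combination (-(Lz p) : PowerSeries ℤ) * hu 0
end Pool.Agent.Lib.MPba1bba.LC
end

section
/-!
# MP_ba1bba_al, LC/PDE: the series `1 + X² (Pe - 1)` modulo a power of `X`
-/
open scoped ENNReal

namespace Pool.Agent.Lib.MPba1bba.LC

open Pool.Agent.Lib.MPba1bba Pool.Agent.Lib.MPba1bba.AS Pool.Agent.Lib.MPba1bba.LR PowerSeries Vec

theorem specPDE (hPSC : SpecPSC) (hPLZ : SpecPLZ) : SpecPDE := by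
  intro p m N hp hm hN
  have hL : Ls p 0 = Lz p := (hPLZ p hp).2.2.2.2.1
  have h1 : (X : PowerSeries ℤ) ^ N ∣ Pe p m - Lz p * (1 + X ^ 2 * (Pe p m - 1)) := by
    rw [PowerSeries.X_pow_dvd_iff]
    intro j hj
    have hb : bs p 0 := by
      intro x hx
      exact absurd hx (Multiset.notMem_zero x)
    have hr : rh p 0 = 0 := by simp [rh]
    have h2 := hPSC p m hp hm 0 hb j (by rw [hr]; omega)
    have h3 : PowerSeries.coeff j (Pe p m) = (pcoef p m 0 j : ℤ) := by
      rw [Pe, PowerSeries.coeff_mk]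
    rw [map_sub, ← hL, ← h2, h3, sub_self]
  obtain ⟨R, hR⟩ := h1
  have hU : PowerSeries.constantCoeff (1 - X ^ 2 * Lz p : PowerSeries ℤ) = 1 := by
    simp
  have hV : (1 - X ^ 2 * Lz p : PowerSeries ℤ) * iv (1 - X ^ 2 * Lz p) = 1 := by
    rw [iv]
    exact PowerSeries.mul_invOfUnit _ 1 (by rw [hU]; rfl)
  have key : ((1 + X ^ 2 * (Pe p m - 1)) - Dz p) * (1 - X ^ 2 * Lz p) = X ^ N * (X ^ 2 * R) := by
    have e1 : Dz p * (1 - X ^ 2 * Lz p) = 1 - X ^ 2 := by
      rw [Dz, mul_assoc, mul_comm (iv _), hV, mul_one]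
    rw [sub_mul, e1]
    linear_combination X ^ 2 * hR
  refine ⟨X ^ 2 * R * iv (1 - X ^ 2 * Lz p), ?_⟩
  calc (1 + X ^ 2 * (Pe p m - 1)) - Dz p
      = ((1 + X ^ 2 * (Pe p m - 1)) - Dz p) *
          ((1 - X ^ 2 * Lz p) * iv (1 - X ^ 2 * Lz p)) := by rw [hV, mul_one]
    _ = X ^ N * (X ^ 2 * R * iv (1 - X ^ 2 * Lz p)) := by
        rw [← mul_assoc, key]
        ring

end Pool.Agent.Lib.MPba1bba.LC
end

section
/-!
# MP_ba1bba_al, LC, module PSC: the coefficients of `P_s` in the low degrees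
-/
set_option autoImplicit false

namespace Pool.Agent.Lib.MPba1bba.LC

open Pool.Agent.Lib.MPba1bba Pool.Agent.Lib.MPba1bba.AS Pool.Agent.Lib.MPba1bba.LR PowerSeries

namespace PSCM

theorem dval_le (m : ℕ) (hm : 1 ≤ m) : ∀ d : List ℤ,
    (dval m d).natAbs ≤ (d.map Int.natAbs).sum * m ^ d.length := by
  intro d
  induction d with
  | nil => simp [dval]
  | cons x d ih =>
    have h1 : dval m (x :: d) = x + m * dval m d := rfl
    rw [h1]
    have h2 := Int.natAbs_add_le x (m * dval m d)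
    rw [Int.natAbs_mul, Int.natAbs_natCast] at h2
    simp only [List.map_cons, List.sum_cons, List.length_cons]
    have h3 : x.natAbs ≤ x.natAbs * m ^ (d.length + 1) :=
      Nat.le_mul_of_pos_right _ (Nat.pow_pos hm)
    have h4 : m * (dval m d).natAbs ≤ (d.map Int.natAbs).sum * m ^ (d.length + 1) := by
      calc m * (dval m d).natAbs ≤ m * ((d.map Int.natAbs).sum * m ^ d.length) :=
            Nat.mul_le_mul_left m ih
        _ = (d.map Int.natAbs).sum * m ^ (d.length + 1) := by ring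
    rw [Nat.add_mul]
    omega

/-- Finite fibres. -/
theorem finite_P (hB : SpecBFN) (hE : SpecEFN) (hI : SpecIC) {p m : ℕ} (hp : 1 ≤ p) (hm : 1 ≤ m)
    (s : Multiset ℤ) (n : ℕ) : {k : ℤ | ic (bfun p s) (efun p m) k ≤ n}.Finite := by
  apply (Set.finite_Icc (-((n + s.card + n * m ^ (n + 1) : ℕ) : ℤ))
    ((n + s.card + n * m ^ (n + 1) : ℕ) : ℤ)).subset
  intro k hk
  have hk : ic (bfun p s) (efun p m) k ≤ n := hk
  obtain ⟨j, hj⟩ := hI.1 (bfun p s) (efun p m) k
  rw [hj] at hk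
  obtain ⟨A, B, hAB, hb⟩ := (hB p).1 s j
  obtain ⟨d, hd, he⟩ := (hE p m hp hm).2.2.2.2.2.2.2.1 (k - j)
  have hc : A.card ≤ s.card := by
    rw [← hAB, Multiset.card_add]
    omega
  have h1 : (j - (A.card : ℤ)).natAbs ≤ p * (j - (A.card : ℤ)).natAbs :=
    Nat.le_mul_of_pos_left _ hp
  have h2 := dval_le m hm d
  rw [hd] at h2
  have h3 : (d.map Int.natAbs).sum ≤ p * (d.map Int.natAbs).sum := Nat.le_mul_of_pos_left _ hp
  rw [dcost] at he
  have h4 : (d.map Int.natAbs).sum * m ^ d.length ≤ n * m ^ (n + 1) :=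
    Nat.mul_le_mul (by omega) (Nat.pow_le_pow_right hm (by omega))
  have h5 : (k - j).natAbs ≤ n * m ^ (n + 1) := h2.trans h4
  generalize n * m ^ (n + 1) = M at h5 ⊢
  rw [Set.mem_Icc]
  push_cast
  omega

theorem ic_e (hB : SpecBFN) (hE : SpecEFN) (hI : SpecIC) {p m : ℕ} (hp : 1 ≤ p) (hm : 1 ≤ m)
    (k : ℤ) : ic (bfun p 0) (efun p m) k = efun p m k := by
  apply le_antisymm
  · have h1 := hI.2.1 (bfun p 0) (efun p m) k 0
    have h2 := (hB p).2.2.1 0
    rw [h2, sub_zero] at h1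
    simpa using h1
  · obtain ⟨j, hj⟩ := hI.1 (bfun p 0) (efun p m) k
    rw [hj, (hB p).2.2.1 j]
    have h1 := (hE p m hp hm).2.2.2.1 j
    have h2 := (hE p m hp hm).2.1 j (k - j)
    rw [add_sub_cancel] at h2
    omega

/-- The cost of the representation `k₀ + m l`. -/
noncomputable def cst (p m : ℕ) (s : Multiset ℤ) (r : ℤ × ℤ) : ℕ :=
  if r.2 = 0 then bfun p s r.1 else bfun p s r.1 + 2 + efun p m r.2

theorem le_cst (hE : SpecEFN) (hI : SpecIC) {p m : ℕ} (hp : 1 ≤ p) (hm : 1 ≤ m)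
    (s : Multiset ℤ) (r : ℤ × ℤ) :
    ic (bfun p s) (efun p m) (r.1 + m * r.2) ≤ cst p m s r := by
  have h1 := hI.2.1 (bfun p s) (efun p m) (r.1 + m * r.2) r.1
  rw [add_sub_cancel_left] at h1
  unfold cst
  split_ifs with h
  · rw [h, mul_zero, (hE p m hp hm).1] at h1
    rw [h, mul_zero]
    omega
  · have h2 := (hE p m hp hm).2.2.2.2.1 r.2
    omega

theorem exists_cst (hB : SpecBFN) (hE : SpecEFN) (hI : SpecIC) {p m : ℕ} (hp : 1 ≤ p)
    (hm : 1 ≤ m) (s : Multiset ℤ) (k : ℤ) :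
    ∃ r : ℤ × ℤ, r.1 + m * r.2 = k ∧ cst p m s r ≤ ic (bfun p s) (efun p m) k := by
  obtain ⟨i, hi⟩ := hI.1 (bfun p s) (efun p m) k
  obtain ⟨d, hd, he⟩ := (hE p m hp hm).2.2.2.2.2.2.2.1 (k - i)
  have hL := (hB p).2.2.2.2.1 s
  rcases d with _ | ⟨x, d⟩
  · refine ⟨(k, 0), by simp, ?_⟩
    have h0 : k - i = 0 := by rw [← hd]; rfl
    have h1 : cst p m s (k, 0) = bfun p s k := by simp [cst]
    have h2 : k = i := by linarith
    rw [h1, hi, h2]
    omega
  · have hx : dval m (x :: d) = x + m * dval m d := rfl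
    rw [hx] at hd
    have h3 := hL (i + x) i
    rw [add_sub_cancel_left] at h3
    by_cases h0 : dval m d = 0
    · refine ⟨(k, 0), by simp, ?_⟩
      have h1 : cst p m s (k, 0) = bfun p s k := by simp [cst]
      rw [h0, mul_zero, add_zero] at hd
      have h2 : k = i + x := by linarith
      have h5 : p * x.natAbs ≤ dcost p (x :: d) := by
        unfold dcost
        simp only [List.map_cons, List.sum_cons, List.length_cons]
        rw [mul_add]
        omega
      rw [h1, hi, he]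
      rw [h2]
      omega
    · refine ⟨(i + x, dval m d), ?_, ?_⟩
      · show i + x + m * dval m d = k
        linarith
      · have h1 : cst p m s (i + x, dval m d) = bfun p s (i + x) + 2 + efun p m (dval m d) := by
          unfold cst
          simp only [h0, if_false]
        have h2 := (hE p m hp hm).2.2.2.2.2.2.2.2 d
        have hd0 : d ≠ [] := by
          rintro rfl
          exact h0 rfl
        have hlen : 1 ≤ d.length := List.length_pos_iff.2 hd0
        have h5 : p * x.natAbs + 2 + dcost p d ≤ dcost p (x :: d) := by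
          unfold dcost
          simp only [List.map_cons, List.sum_cons, List.length_cons]
          rw [mul_add]
          omega
        rw [h1, hi, he]
        omega

theorem unique_cst (hS : SpecSMB) {p m : ℕ} (hm : 1 ≤ m) {s : Multiset ℤ} (hs : bs p s)
    {j : ℕ} (hj : 2 * j + rh p s < p * m) {r r' : ℤ × ℤ} (h : cst p m s r ≤ j)
    (h' : cst p m s r' ≤ j) (e : r.1 + m * r.2 = r'.1 + m * r'.2) : r = r' := by
  have hb : ∀ r : ℤ × ℤ, bfun p s r.1 ≤ cst p m s r := by
    intro r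
    unfold cst
    split_ifs
    · exact le_rfl
    · omega
  have h1 := hb r
  have h2 := hb r'
  have h3 := hS p s hs r.1 r'.1
  have hm0 : (0 : ℤ) < m := by exact_mod_cast hm
  have e1 : r.1 - r'.1 = m * (r'.2 - r.2) := by linarith
  have e2 : r'.2 - r.2 = 0 := by
    by_contra hne
    have h4 : 1 ≤ (r'.2 - r.2).natAbs := Nat.one_le_iff_ne_zero.2 (Int.natAbs_ne_zero.2 hne)
    have h5 : m ≤ (r.1 - r'.1).natAbs := by
      rw [e1, Int.natAbs_mul, Int.natAbs_natCast]
      exact Nat.le_mul_of_pos_right _ h4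
    have h6 : p * m ≤ p * (r.1 - r'.1).natAbs := Nat.mul_le_mul_left p h5
    omega
  have e3 : r.1 - r'.1 = 0 := by rw [e1, e2, mul_zero]
  exact Prod.ext (by linarith) (by linarith)

end PSCM

open PSCM in
theorem specPSC (hB : SpecBFN) (hE : SpecEFN) (hI : SpecIC) (hS : SpecSMB) : SpecPSC := by
  classical
  intro p m hp hm s hs j hj
  have hp1 : 1 ≤ p := by omega
  have hm1 : 1 ≤ m := by omega
  have hfb : ∀ n : ℕ, {k : ℤ | bfun p s k = n}.Finite := fun n =>
    (finite_P hB hE hI hp1 hm1 s n).subset fun k hk => by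
      have h1 := hI.2.1 (bfun p s) (efun p m) k k
      rw [sub_self, (hE p m hp1 hm1).1] at h1
      have hk : bfun p s k = n := hk
      show ic (bfun p s) (efun p m) k ≤ n
      omega
  have hfe : ∀ n : ℕ, {k : ℤ | efun p m k = n}.Finite := fun n =>
    (finite_P hB hE hI hp1 hm1 0 n).subset fun k hk => by
      have h1 := ic_e hB hE hI hp1 hm1 k
      have hk : efun p m k = n := hk
      show ic (bfun p 0) (efun p m) k ≤ n
      omega
  have hlco : ∀ n : ℕ, lco p s n = (hfb n).toFinset.card := fun n =>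
    Nat.subtype_card _ fun k => by rw [Set.Finite.mem_toFinset]; rfl
  have hpc : ∀ n : ℕ, pcoef p m 0 n = (hfe n).toFinset.card := fun n =>
    Nat.subtype_card _ fun k => by
      rw [Set.Finite.mem_toFinset, ic_e hB hE hI hp1 hm1 k]; rfl
  -- the representations of cost `j`
  have hbij : Nat.card {r : ℤ × ℤ // cst p m s r = j} = pcoef p m s j := by
    refine Nat.card_congr (Equiv.ofBijective (fun r => ⟨r.1.1 + m * r.1.2, ?_⟩) ⟨?_, ?_⟩)
    · have h1 := le_cst hE hI hp1 hm1 s r.1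
      rw [r.2] at h1
      obtain ⟨r', h2, h3⟩ := exists_cst hB hE hI hp1 hm1 s (r.1.1 + m * r.1.2)
      have h4 := unique_cst hS hm1 hs hj r.2.le (h3.trans h1) h2.symm
      rw [← h4, r.2] at h3
      exact le_antisymm h1 h3
    · intro r r' h
      have h1 : r.1.1 + m * r.1.2 = r'.1.1 + m * r'.1.2 := congrArg Subtype.val h
      exact Subtype.ext (unique_cst hS hm1 hs hj r.2.le r'.2.le h1)
    · rintro ⟨k, hk⟩
      obtain ⟨r, h2, h3⟩ := exists_cst hB hE hI hp1 hm1 s k
      have h1 := le_cst hE hI hp1 hm1 s r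
      rw [h2] at h1
      exact ⟨⟨r, (le_antisymm h3 h1).trans hk⟩, Subtype.ext h2⟩
  rw [← hbij]
  -- counting
  have hcard : Nat.card {r : ℤ × ℤ // cst p m s r = j} = (hfb j).toFinset.card +
      if 2 ≤ j then ∑ x ∈ Finset.HasAntidiagonal.antidiagonal (j - 2),
        (hfb x.1).toFinset.card * ((hfe x.2).toFinset.erase 0).card else 0 := by
    set U : Finset (ℤ × ℤ) := if 2 ≤ j then (Finset.HasAntidiagonal.antidiagonal (j - 2)).biUnion
      (fun x => (hfb x.1).toFinset ×ˢ ((hfe x.2).toFinset.erase 0)) else ∅ with hU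
    have hUmem : ∀ r : ℤ × ℤ, r ∈ U ↔ r.2 ≠ 0 ∧ bfun p s r.1 + 2 + efun p m r.2 = j := by
      intro r
      rw [hU]
      split_ifs with h2
      · rw [Finset.mem_biUnion]
        constructor
        · rintro ⟨x, h3, h4⟩
          rw [Finset.mem_product, Finset.mem_erase, Set.Finite.mem_toFinset,
            Set.Finite.mem_toFinset] at h4
          have h3' := Finset.HasAntidiagonal.mem_antidiagonal.1 h3
          have a1 : bfun p s r.1 = x.1 := h4.1
          have a2 : efun p m r.2 = x.2 := h4.2.2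
          exact ⟨h4.2.1, by omega⟩
        · rintro ⟨h3, h4⟩
          refine ⟨(bfun p s r.1, efun p m r.2), Finset.HasAntidiagonal.mem_antidiagonal.2 ?_, ?_⟩
          · show bfun p s r.1 + efun p m r.2 = j - 2
            omega
          · rw [Finset.mem_product, Finset.mem_erase, Set.Finite.mem_toFinset,
              Set.Finite.mem_toFinset]
            exact ⟨rfl, h3, rfl⟩
      · constructor
        · intro h
          exact absurd h (Finset.notMem_empty _)
        · rintro ⟨-, h4⟩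
          omega
    have hT : Nat.card {r : ℤ × ℤ // cst p m s r = j} =
        ((hfb j).toFinset ×ˢ ({0} : Finset ℤ) ∪ U).card := by
      refine Nat.subtype_card _ fun r => ?_
      rw [Finset.mem_union, hUmem, Finset.mem_product, Finset.mem_singleton,
        Set.Finite.mem_toFinset]
      unfold cst
      split_ifs with h2
      · simp [h2]
      · simp [h2]
    have hdisj : Disjoint ((hfb j).toFinset ×ˢ ({0} : Finset ℤ)) U := by
      rw [Finset.disjoint_left]
      intro r h1 h2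
      rw [Finset.mem_product, Finset.mem_singleton] at h1
      exact ((hUmem r).1 h2).1 h1.2
    rw [hT, Finset.card_union_of_disjoint hdisj, Finset.card_product, Finset.card_singleton,
      mul_one]
    congr 1
    rw [hU]
    split_ifs with h2
    · rw [Finset.card_biUnion]
      · exact Finset.sum_congr rfl fun x _ => Finset.card_product _ _
      · intro x _ y _ hxy
        rw [Function.onFun, Finset.disjoint_left]
        intro r h3 h4
        apply hxy
        rw [Finset.mem_product, Set.Finite.mem_toFinset, Finset.mem_erase,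
          Set.Finite.mem_toFinset] at h3 h4
        have a1 : bfun p s r.1 = x.1 := h3.1
        have a2 : bfun p s r.1 = y.1 := h4.1
        have a3 : efun p m r.2 = x.2 := h3.2.2
        have a4 : efun p m r.2 = y.2 := h4.2.2
        exact Prod.ext (a1.symm.trans a2) (a3.symm.trans a4)
    · exact Finset.card_empty
  rw [hcard]
  have hE0 : ∀ n : ℕ, (((hfe n).toFinset.erase 0).card : ℤ) =
      PowerSeries.coeff n (Pe p m - 1) := by
    intro n
    rw [map_sub, PowerSeries.coeff_one]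
    have h1 : PowerSeries.coeff n (Pe p m) = (pcoef p m 0 n : ℤ) := PowerSeries.coeff_mk _ _
    rw [h1, hpc n]
    split_ifs with h2
    · subst h2
      have h3 : (0 : ℤ) ∈ (hfe 0).toFinset := by
        rw [Set.Finite.mem_toFinset]
        exact (hE p m hp1 hm1).1
      have h4 := Finset.card_erase_add_one h3
      push_cast [← h4]
      ring
    · have h3 : (0 : ℤ) ∉ (hfe n).toFinset := by
        rw [Set.Finite.mem_toFinset]
        intro h
        have h : efun p m 0 = n := h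
        rw [(hE p m hp1 hm1).1] at h
        exact h2 h.symm
      rw [Finset.erase_eq_of_notMem h3, sub_zero]
  have hL : ∀ n : ℕ, ((hfb n).toFinset.card : ℤ) = PowerSeries.coeff n (Ls p s) := by
    intro n
    have h1 : PowerSeries.coeff n (Ls p s) = (lco p s n : ℤ) := PowerSeries.coeff_mk _ _
    rw [h1, hlco n]
  have e1 : Ls p s * (1 + X ^ 2 * (Pe p m - 1)) = Ls p s + X ^ 2 * (Ls p s * (Pe p m - 1)) := by
    ring
  rw [e1, map_add, PowerSeries.coeff_X_pow_mul', ← hL j]
  push_cast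
  congr 1
  split_ifs with h2
  · rw [PowerSeries.coeff_mul]
    exact Finset.sum_congr rfl fun x _ => by rw [hL, hE0]
  · rfl

end Pool.Agent.Lib.MPba1bba.LC
end

section
/-!
# MP_ba1bba_al, LC, module PSF: psi modulo X^N
-/
open scoped ENNReal

namespace Pool.Agent.Lib.MPba1bba.LC

open Pool.Agent.Lib.MPba1bba Pool.Agent.Lib.MPba1bba.AS Pool.Agent.Lib.MPba1bba.LR PowerSeries

namespace PSFM

/-- `∑_s F_{a,s} W_s`. -/
noncomputable def G (W : Multiset ℤ → PowerSeries ℤ) (F : Ser) (a : ℕ) : PowerSeries ℤ :=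
  (PowerSeries.coeff a F).coeff.sum fun s v => PowerSeries.C v * W s

/-- `∑_{a < N} X^a ∑_s F_{a,s} W_s`. -/
noncomputable def T (W : Multiset ℤ → PowerSeries ℤ) (F : Ser) (N : ℕ) : PowerSeries ℤ :=
  ∑ a ∈ Finset.range N, X ^ a * G W F a

theorem coeff_G (w : Multiset ℤ → ℕ → ℤ) (F : Ser) (a j : ℕ) :
    PowerSeries.coeff j (G (fun s => PowerSeries.mk (w s)) F a) =
      (PowerSeries.coeff a F).coeff.sum fun s v => v * w s j := by
  unfold G Finsupp.sum
  rw [map_sum]
  refine Finset.sum_congr rfl fun s _ => ?_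
  rw [PowerSeries.coeff_C_mul, PowerSeries.coeff_mk]

theorem trunc (w : Multiset ℤ → ℕ → ℤ) (F : Ser) (N : ℕ) :
    X ^ N ∣ (PowerSeries.mk fun n => ∑ ij ∈ Finset.HasAntidiagonal.antidiagonal n,
      ((PowerSeries.coeff ij.1 F).coeff.sum fun s a => a * w s ij.2)) -
      T (fun s => PowerSeries.mk (w s)) F N := by
  rw [PowerSeries.X_pow_dvd_iff]
  intro n hn
  rw [map_sub, PowerSeries.coeff_mk, T, map_sum, sub_eq_zero]
  rw [Finset.Nat.sum_antidiagonal_eq_sum_range_succ_mk]
  rw [← Finset.sum_subset (Finset.range_subset_range.2 (Nat.succ_le_of_lt hn))]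
  · refine Finset.sum_congr rfl fun a ha => ?_
    have ha' : a ≤ n := Nat.lt_succ_iff.1 (Finset.mem_range.1 ha)
    rw [PowerSeries.coeff_X_pow_mul', if_pos ha', coeff_G]
  · intro a _ ha
    have ha' : ¬ a ≤ n := fun h => ha (Finset.mem_range.2 (Nat.lt_succ_of_le h))
    rw [PowerSeries.coeff_X_pow_mul', if_neg ha']

theorem mul_T (W : Multiset ℤ → PowerSeries ℤ) (D : PowerSeries ℤ) (F : Ser) (N : ℕ) :
    D * T W F N = T (fun s => W s * D) F N := by
  unfold T
  rw [Finset.mul_sum]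
  refine Finset.sum_congr rfl fun a _ => ?_
  unfold G Finsupp.sum
  rw [Finset.mul_sum, Finset.mul_sum, Finset.mul_sum]
  refine Finset.sum_congr rfl fun s _ => ?_
  ring

theorem sub_T (W W' : Multiset ℤ → PowerSeries ℤ) (F : Ser) (N : ℕ)
    (h : ∀ a < N, ∀ s, (PowerSeries.coeff a F).coeff s ≠ 0 → X ^ (N - a) ∣ W s - W' s) :
    X ^ N ∣ T W F N - T W' F N := by
  unfold T
  rw [← Finset.sum_sub_distrib]
  refine Finset.dvd_sum fun a ha => ?_
  have ha' : a < N := Finset.mem_range.1 ha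
  rw [← mul_sub]
  have hN : (X : PowerSeries ℤ) ^ N = X ^ a * X ^ (N - a) := by
    rw [← pow_add, Nat.add_sub_cancel' ha'.le]
  rw [hN]
  refine mul_dvd_mul_left _ ?_
  unfold G Finsupp.sum
  rw [← Finset.sum_sub_distrib]
  refine Finset.dvd_sum fun s hs => ?_
  rw [← mul_sub]
  exact Dvd.dvd.mul_left (h a ha' s (Finsupp.mem_support_iff.1 hs)) _

end PSFM

open PSFM in
theorem specPSF (hPSC : SpecPSC) (hPDE : SpecPDE) : SpecPSF := by
  intro p m N F hp hm hN hB hO
  have hpm : p * (m - 1) + p = p * m := by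
    obtain ⟨k, rfl⟩ : ∃ k, m = k + 1 := ⟨m - 1, by omega⟩
    rw [Nat.add_sub_cancel]; ring
  have h1 : X ^ N ∣ psi p m F - T (fun s => PowerSeries.mk fun j => (pcoef p m s j : ℤ)) F N :=
    trunc (fun s j => (pcoef p m s j : ℤ)) F N
  have h2 : X ^ N ∣ psiL p F - T (fun s => Ls p s) F N :=
    trunc (fun s j => (lco p s j : ℤ)) F N
  have h3 : X ^ N ∣ (1 + X ^ 2 * (Pe p m - 1)) - Dz p := hPDE p m N hp hm (by omega)
  have h4 : X ^ N ∣ T (fun s => PowerSeries.mk fun j => (pcoef p m s j : ℤ)) F N -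
      T (fun s => Ls p s * (1 + X ^ 2 * (Pe p m - 1))) F N := by
    refine sub_T _ _ F N fun a ha s hs => ?_
    rw [PowerSeries.X_pow_dvd_iff]
    intro j hj
    have h5 : rh p s ≤ 2 * a := hO a s hs
    rw [map_sub, PowerSeries.coeff_mk, hPSC p m hp hm s (hB a s hs) j (by omega), sub_self]
  have h6 : psi p m F - Dz p * psiL p F =
      (psi p m F - T (fun s => PowerSeries.mk fun j => (pcoef p m s j : ℤ)) F N) +
      (T (fun s => PowerSeries.mk fun j => (pcoef p m s j : ℤ)) F N -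
        T (fun s => Ls p s * (1 + X ^ 2 * (Pe p m - 1))) F N) -
      (1 + X ^ 2 * (Pe p m - 1)) * (psiL p F - T (fun s => Ls p s) F N) +
      ((1 + X ^ 2 * (Pe p m - 1)) - Dz p) * psiL p F := by
    rw [← mul_T]; ring
  rw [h6]
  exact dvd_add (dvd_sub (dvd_add h1 h4) (Dvd.dvd.mul_left h2 _)) (Dvd.dvd.mul_right h3 _)

end Pool.Agent.Lib.MPba1bba.LC
end

section
/-!
# MP_ba1bba_al, first coefficients in closed form: module RLM (the residual weight of a sample)
-/
namespace Pool.Agent.Lib.MPba1bba.LC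

open Pool.Agent.Lib.MPba1bba Pool.Agent.Lib.MPba1bba.AS Pool.Agent.Lib.MPba1bba.LR

namespace RLMM

theorem total (p : ℕ) (t : Multiset ℤ) (h : bs p t) :
    sumPos t + sumNeg t + rh p t = p * Multiset.card t := by
  induction t using Multiset.induction_on with
  | empty => simp [sumPos, sumNeg, rh]
  | cons a t ih =>
    have h1 : bs p t := fun x hx => h x (Multiset.mem_cons_of_mem hx)
    have h2 := h a (Multiset.mem_cons_self a t)
    have h3 := ih h1
    simp only [sumPos, sumNeg, rh, Multiset.map_cons, Multiset.sum_cons, Multiset.card_cons] at *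
    rw [mul_add, mul_one, ← h3]
    omega

theorem ends (hSRT : SpecSRT) (p : ℕ) (t : Multiset ℤ) (h : bs p t) :
    bfun p t 0 = sumNeg t ∧ bfun p t (Multiset.card t : ℤ) = sumPos t := by
  set L := t.sort (· ≤ ·) with hL
  have hsL : (L : Multiset ℤ) = t := Multiset.sort_eq t (· ≤ ·)
  have hpw : L.Pairwise (· ≤ ·) := Multiset.pairwise_sort t (· ≤ ·)
  have hbd : ∀ x ∈ L, -(p : ℤ) < x ∧ x < p := by
    intro x hx
    rw [hL, Multiset.mem_sort] at hx
    exact h x hx
  have hlen : L.length = Multiset.card t := by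
    rw [← hsL, Multiset.coe_card]
  constructor
  · have h0 := hSRT p L hpw hbd 0
    rw [hsL] at h0
    rw [h0]
    have e1 : (0 - (L.length : ℤ)).toNat = 0 := by omega
    rw [e1]
    simp [sumPos, hsL]
  · have h0 := hSRT p L hpw hbd (Multiset.card t : ℤ)
    rw [hsL] at h0
    rw [h0]
    have e1 : ((Multiset.card t : ℤ) - (L.length : ℤ)).toNat = 0 := by omega
    have e2 : (-(Multiset.card t : ℤ)).toNat = 0 := by omega
    have e3 : L.take (Multiset.card t : ℤ).toNat = L := by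
      rw [Int.toNat_natCast, ← hlen, List.take_length]
    have e4 : L.drop (Multiset.card t : ℤ).toNat = [] := by
      rw [Int.toNat_natCast, ← hlen, List.drop_length]
    rw [e1, e2, e3, e4, hsL]
    simp [sumNeg]

end RLMM

open RLMM

/-- **RLM**. The residual weight of a sample. -/
theorem specRLM (hSMB : SpecSMB) (hWIN : SpecWIN) (hSMC : SpecSMC) (hSRT : SpecSRT) :
    SpecRLM := by
  intro p m hp hm s hs r
  obtain ⟨y, hy⟩ := hWIN p m hp hm s hs r
  set t := sml p m s r with ht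
  have hbt : bs p t := (hSMC p m hp hm).1 s r
  set N := Multiset.card t with hN
  have h0 := hy 0 (Nat.zero_le _)
  have h1 := hy N le_rfl
  obtain ⟨e0, e1⟩ := ends hSRT p t hbt
  have e2 := total p t hbt
  have e3 := hSMB p s hs (r + m * (y + ((0 : ℕ) : ℤ))) (r + m * (y + (N : ℤ)))
  have e4 : ((r : ℤ) + m * (y + ((0 : ℕ) : ℤ)) - (r + m * (y + (N : ℤ)))).natAbs = m * N := by
    have : (r : ℤ) + m * (y + ((0 : ℕ) : ℤ)) - (r + m * (y + (N : ℤ))) = -((m * N : ℕ) : ℤ) := by
      push_cast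
      ring
    rw [this, Int.natAbs_neg, Int.natAbs_natCast]
  rw [e4, h0, h1] at e3
  rw [← hN] at e1 e2
  rw [Nat.cast_zero, e0, e1] at e3
  obtain ⟨m', rfl⟩ : ∃ m', m = m' + 1 := ⟨m - 1, by omega⟩
  have e5 : p * ((m' + 1) * N) = p * m' * N + p * N := by ring
  have e6 : p * (m' + 1 - 1) * N = p * m' * N := by simp
  rw [e5] at e3
  rw [e6]
  omega

end Pool.Agent.Lib.MPba1bba.LC
end

section
/-!
# MP_ba1bba_al, first coefficients in closed form, module SMB: two values of a profile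

`p |k - k'| ≤ b_s(k) + b_s(k') + ρ(s)`, from two optimal decompositions of `s`.
-/
namespace Pool.Agent.Lib.MPba1bba.LC

open Pool.Agent.Lib.MPba1bba Pool.Agent.Lib.MPba1bba.AS Pool.Agent.Lib.MPba1bba.LR

namespace SMBM

theorem sumPos_add (A B : Multiset ℤ) : sumPos (A + B) = sumPos A + sumPos B := by
  simp [sumPos]

theorem sumNeg_add (A B : Multiset ℤ) : sumNeg (A + B) = sumNeg A + sumNeg B := by
  simp [sumNeg]

theorem rh_add (p : ℕ) (A B : Multiset ℤ) : rh p (A + B) = rh p A + rh p B := by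
  simp [rh]

theorem sumPos_mono {A B : Multiset ℤ} (h : A ≤ B) : sumPos A ≤ sumPos B := by
  obtain ⟨C, rfl⟩ := Multiset.le_iff_exists_add.mp h
  rw [sumPos_add]; omega

theorem sumNeg_mono {A B : Multiset ℤ} (h : A ≤ B) : sumNeg A ≤ sumNeg B := by
  obtain ⟨C, rfl⟩ := Multiset.le_iff_exists_add.mp h
  rw [sumNeg_add]; omega

theorem rh_mono {p : ℕ} {A B : Multiset ℤ} (h : A ≤ B) : rh p A ≤ rh p B := by
  obtain ⟨C, rfl⟩ := Multiset.le_iff_exists_add.mp h
  rw [rh_add]; omega

/-- `∑ x⁺ + ∑ x⁻ + ρ = p` times the number of elements. -/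
theorem sum_all (p : ℕ) (C : Multiset ℤ) : (∀ x ∈ C, -(p : ℤ) < x ∧ x < p) →
    sumPos C + sumNeg C + rh p C = p * Multiset.card C := by
  induction C using Multiset.induction_on with
  | empty => intro _; simp [sumPos, sumNeg, rh]
  | cons a C ih =>
    intro h
    have h1 := ih (fun x hx => h x (Multiset.mem_cons_of_mem hx))
    have ha := h a (Multiset.mem_cons_self a C)
    have e1 : sumPos (a ::ₘ C) = a.toNat + sumPos C := by simp [sumPos]
    have e2 : sumNeg (a ::ₘ C) = (-a).toNat + sumNeg C := by simp [sumNeg]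
    have e3 : rh p (a ::ₘ C) = (p - a.natAbs) + rh p C := by simp [rh]
    have e4 : a.toNat + (-a).toNat + (p - a.natAbs) = p := by omega
    rw [e1, e2, e3, Multiset.card_cons, Nat.mul_succ]
    omega

/-- The case `k ≤ k'`. -/
theorem half (hBFN : SpecBFN) (p : ℕ) (s : Multiset ℤ) (hs : bs p s) (k k' : ℤ) (hk : k ≤ k') :
    p * (k - k').natAbs ≤ bfun p s k + bfun p s k' + rh p s := by
  obtain ⟨A, B, hAB, h1⟩ := (hBFN p).1 s k
  obtain ⟨A', B', hAB', h2⟩ := (hBFN p).1 s k'
  have c1 : A' - A ≤ A' := tsub_le_self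
  have hA's : A' ≤ s := by rw [← hAB']; exact Multiset.le_add_right _ _
  have c2 : A' - A ≤ B := by
    rw [tsub_le_iff_left]
    rw [hAB]; exact hA's
  have c3 : A' - A ≤ s := c1.trans hA's
  have c4 : Multiset.card A' ≤ Multiset.card (A' - A) + Multiset.card A := by
    have : A' ≤ (A' - A) + A := by
      rw [← tsub_le_iff_right]
    have h := Multiset.card_le_card this
    rwa [Multiset.card_add] at h
  have c5 := sum_all p (A' - A) (fun x hx => hs x (Multiset.mem_of_le c3 hx))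
  have c6 := sumPos_mono c1
  have c7 := sumNeg_mono c2
  have c8 := rh_mono (p := p) c3
  have c9 : (k - k').natAbs ≤ Multiset.card (A' - A) + (k - (Multiset.card A : ℤ)).natAbs +
      (k' - (Multiset.card A' : ℤ)).natAbs := by omega
  have c10 : p * (k - k').natAbs ≤ p * Multiset.card (A' - A) +
      p * (k - (Multiset.card A : ℤ)).natAbs + p * (k' - (Multiset.card A' : ℤ)).natAbs := by
    rw [← Nat.mul_add, ← Nat.mul_add]
    exact Nat.mul_le_mul_left _ c9
  rw [h1, h2]
  omega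

end SMBM

theorem specSMB (hBFN : SpecBFN) : SpecSMB := by
  intro p s hs k k'
  rcases le_total k k' with h | h
  · exact SMBM.half hBFN p s hs k k' h
  · have := SMBM.half hBFN p s hs k' k h
    have e : (k' - k).natAbs = (k - k').natAbs := by omega
    rw [e] at this
    omega

end Pool.Agent.Lib.MPba1bba.LC
end

section
/-!
# MP_ba1bba_al, first coefficients in closed form: uniqueness of power series with nonnegative coefficients
-/
open scoped ENNReal

namespace Pool.Agent.Lib.MPba1bba.LC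

open Pool.Agent.Lib.MPba1bba Pool.Agent.Lib.MPba1bba.AS Pool.Agent.Lib.MPba1bba.LR PowerSeries Vec

namespace UNIM

theorem split (a : ℕ → ℕ) (z : ℝ≥0∞) (n : ℕ) : ∑' k, z ^ k * (a k : ℝ≥0∞) =
    ∑ k ∈ Finset.range n, z ^ k * (a k : ℝ≥0∞) + z ^ n * ∑' k, z ^ k * (a (k + n) : ℝ≥0∞) := by
  have h := Summable.sum_add_tsum_nat_add' (f := fun k => z ^ k * (a k : ℝ≥0∞)) (k := n)
    ENNReal.summable
  rw [← h, ← ENNReal.tsum_mul_left]
  congr 1
  refine tsum_congr fun k => ?_
  rw [pow_add]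
  ring

theorem split1 (a : ℕ → ℕ) (z : ℝ≥0∞) (n : ℕ) : ∑' k, z ^ k * (a (k + n) : ℝ≥0∞) =
    a n + z * ∑' k, z ^ k * (a (k + (n + 1)) : ℝ≥0∞) := by
  have h := split (fun k => a (k + n)) z 1
  rw [h]
  simp only [Finset.range_one, Finset.sum_singleton, pow_zero, one_mul, pow_one, zero_add]
  congr 2
  refine tsum_congr fun k => ?_
  rw [show k + 1 + n = k + (n + 1) by ring]

theorem le_of (a b : ℕ → ℕ)
    (h : ∀ z : ℝ≥0∞, 0 < z → z ≤ 2⁻¹ → ∑' k, z ^ k * (a k : ℝ≥0∞) = ∑' k, z ^ k * (b k : ℝ≥0∞) ∧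
      ∑' k, z ^ k * (a k : ℝ≥0∞) ≠ ∞) (n : ℕ) (hn : ∀ k < n, a k = b k) : b n ≤ a n := by
  by_contra hlt
  push Not at hlt
  set C : ℝ≥0∞ := ∑' k, (2⁻¹ : ℝ≥0∞) ^ k * (a (k + (n + 1)) : ℝ≥0∞) with hC
  have hCtop : C ≠ ∞ := by
    intro hCt
    have h2 := (h 2⁻¹ (by simp) le_rfl).2
    apply h2
    rw [split a 2⁻¹ (n + 1), ← hC, hCt]
    rw [ENNReal.mul_top (by simp)]
    simp
  set z : ℝ≥0∞ := 2⁻¹ * (C + 1)⁻¹ with hz
  have hC1 : C + 1 ≠ ∞ := by simp [hCtop]
  have hz0 : 0 < z := by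
    rw [hz]
    apply ENNReal.mul_pos (by simp)
    exact ENNReal.inv_ne_zero.mpr hC1
  have hinv : (C + 1)⁻¹ ≤ 1 := by
    rw [ENNReal.inv_le_one]
    exact le_add_self
  have hz2 : z ≤ 2⁻¹ := by
    rw [hz]
    calc 2⁻¹ * (C + 1)⁻¹ ≤ 2⁻¹ * 1 := by gcongr
      _ = 2⁻¹ := mul_one _
  have hzC : z * C < 1 := by
    rw [hz]
    calc 2⁻¹ * (C + 1)⁻¹ * C ≤ 2⁻¹ * (C + 1)⁻¹ * (C + 1) := by gcongr; exact le_self_add
      _ = 2⁻¹ := by
        rw [mul_assoc, ENNReal.inv_mul_cancel (by simp) hC1, mul_one]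
      _ < 1 := by
        rw [ENNReal.inv_lt_one]
        exact ENNReal.one_lt_two
  have hztop : z ≠ ∞ := ne_top_of_le_ne_top (by simp) hz2
  have e1 := h z hz0 hz2
  rw [split a z n, split b z n] at e1
  have hsum : ∑ k ∈ Finset.range n, z ^ k * (a k : ℝ≥0∞) =
      ∑ k ∈ Finset.range n, z ^ k * (b k : ℝ≥0∞) :=
    Finset.sum_congr rfl fun k hk => by rw [hn k (Finset.mem_range.mp hk)]
  obtain ⟨e2, e3⟩ := e1
  rw [hsum] at e2 e3
  have hfin : ∑ k ∈ Finset.range n, z ^ k * (b k : ℝ≥0∞) ≠ ∞ := by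
    intro ht
    rw [ht] at e3
    simp at e3
  have e4 := (ENNReal.add_right_inj hfin).mp e2
  have hzn0 : z ^ n ≠ 0 := pow_ne_zero _ hz0.ne'
  have hznt : z ^ n ≠ ∞ := ENNReal.pow_ne_top hztop
  have e5 := (ENNReal.mul_right_inj hzn0 hznt).mp e4
  rw [split1 a z n, split1 b z n] at e5
  have hle : ∑' k, z ^ k * (a (k + (n + 1)) : ℝ≥0∞) ≤ C := by
    rw [hC]
    refine ENNReal.tsum_le_tsum fun k => ?_
    gcongr
  have h1 : (b n : ℝ≥0∞) < a n + 1 := by
    calc (b n : ℝ≥0∞) ≤ b n + z * ∑' k, z ^ k * (b (k + (n + 1)) : ℝ≥0∞) := le_self_add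
      _ = a n + z * ∑' k, z ^ k * (a (k + (n + 1)) : ℝ≥0∞) := e5.symm
      _ ≤ a n + z * C := by gcongr
      _ < a n + 1 := ENNReal.add_lt_add_left (by simp) hzC
  have h2 : (a n : ℝ≥0∞) + 1 ≤ b n := by
    exact_mod_cast hlt
  exact absurd h1 (not_lt.mpr h2)

theorem eq_of (a b : ℕ → ℕ)
    (h : ∀ z : ℝ≥0∞, 0 < z → z ≤ 2⁻¹ → ∑' k, z ^ k * (a k : ℝ≥0∞) = ∑' k, z ^ k * (b k : ℝ≥0∞) ∧
      ∑' k, z ^ k * (a k : ℝ≥0∞) ≠ ∞) (n : ℕ) : a n = b n := by
  induction n using Nat.strong_induction_on with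
  | _ n ih =>
    refine le_antisymm ?_ (le_of a b h n ih)
    refine le_of b a (fun z hz hz2 => ?_) n (fun k hk => (ih k hk).symm)
    obtain ⟨h1, h2⟩ := h z hz hz2
    exact ⟨h1.symm, h1 ▸ h2⟩

end UNIM

theorem specUNI : SpecUNI := by
  intro f g hf hg h
  ext n
  have := UNIM.eq_of (fun k => (PowerSeries.coeff k f).toNat) (fun k => (PowerSeries.coeff k g).toNat)
    (fun z hz hz2 => h z hz hz2) n
  have h1 := hf n
  have h2 := hg n
  omega

end Pool.Agent.Lib.MPba1bba.LC
end
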