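import Pool.Agent.Lib.MP_ba1bba_al.LC.Defs

/-!
# MP_ba1bba_al, first coefficients in closed form: Specs of all modules (proofs in the docstrings)

In a module with hypotheses `SpecX` write `theorem specNAME (hX : SpecX) ... : SpecNAME`. `SpecBFN`,
`SpecSRT`, `SpecIC`, `SpecEFN` are in `MP_ba1bba_al/Spec.lean`, `SpecSMC`, `SpecEVA`, `SpecEVL`, `SpecPSR`
in `MP_ba1bba_al/AS/Spec.lean`, `SpecPRF`, `SpecWIN`, `SpecLNF` in `MP_ba1bba_al/LR/Spec.lean`; they are all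
proved. `X ^ N ∣ F - G` is congruence of power series modulo degree `N` (`PowerSeries.X_pow_dvd_iff`).
`emb : ℤ⟦X⟧ → Ser` is `PowerSeries.map`, a ring homomorphism (`AS/Defs.lean`). The result was checked by
computer for `p = 2, 3, 4` (the coefficients even agree for `2 n < p m + p + 2`).
-/

open scoped ENNReal

namespace Pool.Agent.Lib.MPba1bba.LC

open Pool.Agent.Lib.MPba1bba Pool.Agent.Lib.MPba1bba.AS Pool.Agent.Lib.MPba1bba.LR PowerSeries Vec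

/-! ## I. Profiles and digits -/

/-- **SMB** [80], from BFN. Let `A + B = s = A' + B'` be optimal for `k`, `k'` (`specBFN` (1)), `k ≤ k'`
(symmetry). `C = A' - A` satisfies `C ≤ A'`, `C ≤ B`, `C ≤ s`, `card C ≥ card A' - card A`. For `x ∈ C`:
`x⁺ + x⁻ + (p - |x|) = p`. So `sumPos A' + sumNeg B + ρ(s) ≥ p card C ≥ p (card A' - card A)`, and
`b(k) + b(k') + ρ(s) ≥ p (card A' - card A) + p |k - card A| + p |k' - card A'| ≥ p (k' - k)`. -/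
def SpecSMB : Prop := ∀ (p : ℕ) (s : Multiset ℤ), bs p s → ∀ k k' : ℤ,
  p * (k - k').natAbs ≤ bfun p s k + bfun p s k' + rh p s

/-- **RLM** [120], from SMB, WIN, SMC, SRT. Let `t = sml(s,r)` (bounded, SMC (1)), `N = #t`, `y` from WIN. SMB for
`k = r + m y`, `k' = r + m (y + N)`: `p m N ≤ 2 cmin + b_t(0) + b_t(N) + ρ(s)`. By `specSRT` `b_t(0) = ∑ x⁻`,
`b_t(N) = ∑ x⁺`, so `b_t(0) + b_t(N) + ρ(t) = p N`. Hence `ρ(t) + p (m - 1) N ≤ 2 cmin + ρ(s)`. -/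
def SpecRLM : Prop := ∀ p m : ℕ, 2 ≤ p → 2 ≤ m → ∀ s, bs p s → ∀ r : ℕ,
  rh p (sml p m s r) + p * (m - 1) * Multiset.card (sml p m s r) ≤ 2 * cmin p m s r + rh p s

/-- **LSC** [150], from SMB, RLM, SMC. Let `2 j + ρ(s) ≤ p (m - 1)`. (1) If `cmin(s,r) = j` and `sml(s,r) ≠ ∅`
then `ρ(sml) ≥ 1` and RLM gives `1 + p (m-1) ≤ 2 j + ρ(s)`, a contradiction. (2) The map `k ↦ (k % m).toNat` from
`{k : b_s(k) = j}` to `{r < m : cmin(s,r) = j}` is well defined and injective: if `k' ≠ k` is in the same class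
with `b_s(k') ≤ j = b_s(k)` then SMB gives `p m ≤ 2 j + ρ(s)`, a contradiction; surjective, as the infimum in `cmin` is
attained. So `coeff j (lamB p m s) = single 0 (lco p s j)` (`PowerSeries.coeff_monomial`). -/
def SpecLSC : Prop := ∀ p m : ℕ, 2 ≤ p → 2 ≤ m → ∀ s, bs p s → ∀ j : ℕ, 2 * j + rh p s ≤ p * (m - 1) →
  (∀ r < m, cmin p m s r = j → sml p m s r = 0) ∧
  PowerSeries.coeff j (lamB p m s) = AddMonoidAlgebra.single (0 : Multiset ℤ) (lco p s j : ℤ)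

/-- **PSC** [200], from BFN, EFN, IC, SMB. Let `P = ic (bfun p s) (efun p m)` and `2 j + ρ(s) < p m`. A
representation of `k` is a pair `(k₀, l)` with `k = k₀ + m l`; its cost is `b_s(k₀)` if `l = 0` and
`b_s(k₀) + 2 + e(l)` if `l ≠ 0`. (a) the cost is `≥ P(k)`: `P ≤ b_s` (`e(0) = 0`), `e(m l) ≤ 2 + e(l)`. (b) some
representation has cost `P(k)`: `P(k) = b_s(i) + e(k - i)` (IC), `k - i = dval d` with `dcost d = e(k - i)` (EFN (8)); if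
`d = []` or `d = [d₀]` then `b_s(k) ≤ b_s(i) + p |k - i| = P(k)`; if `d = d₀ :: rest`, `rest ≠ []`, `l = dval rest`,
`k₀ = i + d₀`: `b_s(k₀) ≤ b_s(i) + p |d₀|`, `e(l) ≤ dcost rest` (EFN (9)), so `b_s(k₀) + 2 + e(l) ≤ P(k)`, and `l ≠ 0` by (a)
(if `l = 0` then `b_s(k) + 2 ≤ P(k) ≤ b_s(k)`). (c) a `k` has at most one representation of cost `≤ j`: two of them with
`k₀ ≠ k₀'` give `p m ≤ b_s(k₀) + b_s(k₀') + ρ(s) ≤ 2 j + ρ(s)` (SMB, `m ∣ k₀ - k₀'`). So `(k₀, l) ↦ k₀ + m l` is a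
bijection from the representations of cost `j` to `{k : P(k) = j}`. Count: `lco p s j +
∑_{a + 2 + b = j} lco p s a · #{l ≠ 0 : e(l) = b}`, and `pcoef p m 0 b = #{l : e(l) = b}` (`b_∅ □ e = e`), `e(l) = 0` only for
`l = 0`. -/
def SpecPSC : Prop := ∀ p m : ℕ, 2 ≤ p → 2 ≤ m → ∀ s, bs p s → ∀ j : ℕ, 2 * j + rh p s < p * m →
  (pcoef p m s j : ℤ) = PowerSeries.coeff j (Ls p s * (1 + X ^ 2 * (Pe p m - 1)))

/-- **PDE** [80], from PSC, PLZ. `s = ∅`, `ρ = 0`, `L_∅ = ℓ`: `Pe ≡ ℓ (1 + X² (Pe - 1))` in the degrees `j` with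
`2 j < p m`, i.e. modulo `X^N` if `2 N ≤ p m + 1`. So `(1 - X² ℓ) Pe ≡ ℓ (1 - X²)`, `Pe ≡ ℓ D`, and
`1 + X² (Pe - 1) ≡ 1 - X² + X² ℓ D = D` (`D (1 - X² ℓ) = 1 - X²`). -/
def SpecPDE : Prop := ∀ p m N : ℕ, 2 ≤ p → 2 ≤ m → 2 * N ≤ p * m + 1 →
  X ^ N ∣ (1 + X ^ 2 * (Pe p m - 1)) - Dz p

/-! ## II. Series -/

/-- **IVZ** [80]. `f * iv f = 1` if the constant coefficient of `f` is `1` (`PowerSeries.mul_invOfUnit`);
congruence: if `X ^ N ∣ f - g`, both with constant coefficient `1`, then `X ^ N ∣ iv f - iv g`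
(`iv f - iv g = iv f iv g (g - f)`); uniqueness of the inverse. -/
def SpecIVZ : Prop :=
  (∀ f : PowerSeries ℤ, PowerSeries.constantCoeff f = 1 → f * iv f = 1 ∧
    PowerSeries.constantCoeff (iv f) = 1 ∧ ∀ h, f * h = 1 → h = iv f) ∧
  (∀ (f g : PowerSeries ℤ) (N : ℕ), PowerSeries.constantCoeff f = 1 → PowerSeries.constantCoeff g = 1 →
    X ^ N ∣ f - g → X ^ N ∣ iv f - iv g) ∧
  (∀ (p t : ℕ) (e : PowerSeries ℤ), 2 ≤ p → PowerSeries.constantCoeff (cz p t) = 0 ∧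
    PowerSeries.constantCoeff (1 - e * cz p t) = 1 ∧ PowerSeries.constantCoeff (1 - (X : PowerSeries ℤ) ^ p) = 1 ∧
    PowerSeries.constantCoeff (1 - X * e) = 1 ∧ PowerSeries.constantCoeff (1 - X ^ 2 * e) = 1) ∧
  (∀ (p N : ℕ) (e e' : PowerSeries ℤ), 2 ≤ p → X ^ N ∣ e - e' →
    X ^ N ∣ Mz p e - Mz p e' ∧ X ^ N ∣ Nz p e - Nz p e')

/-- **PLZ** [150], from BFN, PRF. (1) additivity (`Finsupp.sum_add_index'`), see `AS/PSE.lean` (`psi`; same proofs, or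
deduce from general `w s n` in place of `lco p s n`). (2) linearity over `ℤ⟦X⟧`. (3) congruence: if the coefficients
of `F` in degrees `< N` vanish then so do those of `psiL p F`. (4) `[s] ↦ L_s`, in particular `psiL p (emb f) = f L_∅`,
(5) `L_∅ = ℓ`: `b_∅(k) = p |k|`; coefficientwise: `1` for `n = 0`, `2` if `p ∣ n > 0`, else `0`; so
`(1 - X^p) L_∅ = 1 + X^p`. (6) evaluation, as in `SpecPSE` (3): `∑_n zⁿ lco p s n = ∑_k z^{b_s(k)}`
(finite fibres by PRF (2)). (7) nonnegativity. -/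
def SpecPLZ : Prop := ∀ p : ℕ, 2 ≤ p →
  (∀ F G : Ser, psiL p (F + G) = psiL p F + psiL p G) ∧
  (∀ (f : PowerSeries ℤ) (F : Ser), psiL p (emb f * F) = f * psiL p F) ∧
  (∀ (F G : Ser) (N : ℕ), X ^ N ∣ F - G → X ^ N ∣ psiL p F - psiL p G) ∧
  (∀ f : PowerSeries ℤ, psiL p (emb f) = f * Lz p) ∧
  Ls p 0 = Lz p ∧
  (∀ F : Ser, Nn F → (∀ n, 0 ≤ PowerSeries.coeff n (psiL p F)) ∧
    ∀ z : ℝ≥0∞, evs z (psiL p F) = pr (ev z F) (LF p z))

/-- **LMZ** [80], from EVL. Congruence for `lam`, and linearity over `ℤ⟦X⟧` (in `AS/PSR.lean`, `specGUV` (1), there is a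
proof of `lam p m (emb f * F) = emb f * lam p m F`; only `Dat`-free parts may be used: reprove it). -/
def SpecLMZ : Prop := ∀ p m : ℕ,
  (∀ F G : Ser, lam p m (F - G) = lam p m F - lam p m G) ∧
  (∀ (F G : Ser) (N : ℕ), X ^ N ∣ F - G → X ^ N ∣ lam p m F - lam p m G)

/-- **ROC** [200], from RLM, PSR, EVL. `OrdR` and `Bs` are closed under sums, products (`ρ` is additive), contain `1`,
`emb f`, `serY` (the letter `2i - p` has `ρ = 2 min(i,p-i)`, the degree is `min(i,p-i)`), and `X * F`; and if `F` is `Bs` and `OrdR`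
in degrees `≤ N` then `lam p m F` is `OrdR` in degrees `≤ N` (RLM: `ρ(sml) ≤ 2 cmin + ρ(s) ≤ 2 (cmin + degree)`). `E` and `Q`
together by strong induction on the degree as in `LR/ORD.lean` (`Q = Y + Y E Q`, `E = X² (lam(1+E+Q(1+E)²) - 1)`), then
`serR`, and `H = X lam (serR (1+E+H))` again by induction on the degree. -/
def SpecROC : Prop := ∀ (p m : ℕ) (Q E H V U : Ser), Dat p m Q E H V U →
  (OrdR p E ∧ OrdR p Q ∧ OrdR p H ∧ OrdR p (serR Q E) ∧ OrdR p ((1 + E) * serR Q E) ∧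
    OrdR p (serR Q E * (1 + E + H)) ∧ OrdR p (1 + E + 2 * H + Q * (1 + E + H) ^ 2)) ∧
  (Bs p ((1 + E) * serR Q E) ∧ Bs p (serR Q E * (1 + E + H)) ∧
    Bs p (1 + E + 2 * H + Q * (1 + E + H) ^ 2))

/-- **LSF** [120], from LSC. The coefficient of degree `i < N` of `lam p m F` is
`∑_{a+b=i} ∑_s F_{a,s} coeff b (lamB p m s)`; for `F_{a,s} ≠ 0` `s` is bounded and `ρ(s) ≤ 2 a`, so
`2 b + ρ(s) ≤ 2 i ≤ p (m-1)` and LSC applies: it is `∑ F_{a,s} lco p s b` times `[∅]`, the coefficient of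
`emb (psiL p F)`. -/
def SpecLSF : Prop := ∀ (p m N : ℕ) (F : Ser), 2 ≤ p → 2 ≤ m → 2 * N ≤ p * (m - 1) + 2 → Bs p F →
  OrdR p F → X ^ N ∣ lam p m F - emb (psiL p F)

/-- **PSF** [100], from PSC, PDE, PLZ. The coefficient of degree `i < N` of `psi p m F` is `∑_{a+b=i} ∑_s F_{a,s} pcoef(s,b)`,
with `2 b + ρ(s) ≤ 2 i ≤ p (m-1) < p m`: by PSC `pcoef(s,b) = coeff b (L_s D')`, `D' = 1 + X² (Pe - 1) ≡ D` (PDE). So it is the
coefficient of degree `i` of `D psiL p F`. -/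
def SpecPSF : Prop := ∀ (p m N : ℕ) (F : Ser), 2 ≤ p → 2 ≤ m → 2 * N ≤ p * (m - 1) + 2 → Bs p F →
  OrdR p F → X ^ N ∣ psi p m F - Dz p * psiL p F

/-! ## III. Closed forms -/

/-- **UNI** [80]. Uniqueness for power series with nonnegative coefficients. Strong induction on `n`: if the
coefficients below `n` agree, cancel the (finite) partial sums, divide by `zⁿ`: `f_n + z A(z) = g_n + z B(z)` for all
`0 < z ≤ 1/2` with `A(z) ≤ A(1/2) < ∞`; let `z → 0`. (Or use real power series: both have radius of convergence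
`≥ 1/2` and agree on `(0,1/2)`.) -/
def SpecUNI : Prop := ∀ f g : PowerSeries ℤ, (∀ n, 0 ≤ PowerSeries.coeff n f) →
  (∀ n, 0 ≤ PowerSeries.coeff n g) →
  (∀ z : ℝ≥0∞, 0 < z → z ≤ 2⁻¹ → evs z f = evs z g ∧ evs z f ≠ ∞) → f = g

/-- **LNZ** [150], from LNF, PLZ, EVA, PSR, UNI, IVZ. Both sides have nonnegative coefficients. `psiL p (serY p ^ n)` has
the value `⟨yⁿ, L⟩` at `z` (PLZ (6), EVA: `ev z (serY p ^ n) = ev z (serY p) ^ n`), and by LNF it is the value of the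
right side: `evs z` is additive and multiplicative on series with nonnegative coefficients (`evs z f = (ev z (emb f)).co 0`
and EVA, or directly), `evs z (cz p t) = ce p t z` for `t ≤ p - 1`, `evs z (Lz p) = 1 + 2 A1 p z` (for `z < 1`:
`L_∅ = ℓ`, or from `(1 - X^p) ℓ = 1 + X^p`). All values are finite for `z ≤ 1/2`. -/
def SpecLNZ : Prop := ∀ p n : ℕ, 2 ≤ p →
  psiL p (serY p ^ n) = cz p 0 ^ n * Lz p + ∑ t ∈ Finset.range (p - 1), X ^ (p - 1 - t) *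
    ∑ l ∈ Finset.range n, cz p (t + 1) ^ l * cz p t ^ (n - 1 - l)

/-- **MZF** [150], from LNZ, PLZ, IVZ. Let `ℓ_n = psiL(Yⁿ)`. Modulo `X^K` (`Y` has order `≥ 1`, so `X^K ∣ (emb e Y)^K`):
`G ≡ ∑_{n<K} emb(eⁿ) Yⁿ`, so `psiL (Y G) ≡ ∑_{n<K} eⁿ ℓ_{n+1}` and `psiL G ≡ ∑_{n<K} eⁿ ℓ_n` (PLZ). In the closed form:
`∑_{n<K} (e c_0)ⁿ ≡ u_0`; `σ_n = ∑_{l<n} c^l c'^{n-1-l}` (`c = c_{t+1}`, `c' = c_t`) satisfies `σ_{n+1} = c σ_n + c'ⁿ`, so
`T = ∑_{n<K} eⁿ σ_{n+1}` satisfies `T ≡ e c T + u_t`, `T ≡ u_t u_{t+1}`, and `∑_{n<K} eⁿ σ_n ≡ e T`. Hence for all `K`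
`psiL (Y G) ≡ ℓ c_0 u_0 + ∑_t X^{p-1-t} u_t u_{t+1} = N(e)` and `psiL G ≡ ℓ u_0 + e W(e)`; the sum of the two is `M(e)`.
A power series divisible by all `X^K` is `0`. -/
def SpecMZF : Prop := ∀ (p : ℕ) (e : PowerSeries ℤ) (G : Ser), 2 ≤ p → G = 1 + emb e * serY p * G →
  psiL p ((1 + serY p) * G) = Mz p e ∧ psiL p (serY p * G) = Nz p e

/-- **FIX** [80]. `Φⁿ(0)` is a Cauchy sequence: `X^n ∣ Φⁿ⁺¹(0) - Φⁿ(0)`; let `coeff n f = coeff n (Φ^{n+1}(0))`; then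
`X^N ∣ f - Φ^N(0)` for all `N`, so `X^N ∣ Φ f - f` for all `N`. Uniqueness: `X^N ∣ f - g` for all `N` by induction. -/
def SpecFIX : Prop := ∀ Φ : PowerSeries ℤ → PowerSeries ℤ,
  (∀ (N : ℕ) (f g : PowerSeries ℤ), X ^ N ∣ f - g → X ^ (N + 1) ∣ Φ f - Φ g) →
  ∃ f : PowerSeries ℤ, Φ f = f ∧ ∀ g, Φ g = g → g = f

/-- **EEX** [60], from FIX, IVZ. `Φ(e) = X² ((1+e) M(e) - 1)`. -/
def SpecEEX : Prop := ∀ p : ℕ, 2 ≤ p → ∃ e : PowerSeries ℤ, e + X ^ 2 = X ^ 2 * ((1 + e) * Mz p e) ∧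
  ∀ e' : PowerSeries ℤ, e' + X ^ 2 = X ^ 2 * ((1 + e') * Mz p e') → e' = e

/-- **GEX** [60]. Pure algebra in `Ser`: `1 - emb e * serY p` and `1 - serY p * E` have constant coefficient `1`
(`serY p` has constant coefficient `0`), so they are units. (1) `G` exists (`PowerSeries.invOfUnit`). (2), (3): with
`Δ = R' - (1+Y) G`, from `R' = 1 + Y + Y E R'` (PSR (3)) and `(1+Y) G = 1 + Y + emb e Y (1+Y) G`:
`(1 - Y E) Δ = Y (E - emb e) (1+Y) G`; similarly for `Q = Y + Y E Q` and `Y G`. -/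
def SpecGEX : Prop := ∀ (p : ℕ), 2 ≤ p →
  (∀ e : PowerSeries ℤ, ∃ G : Ser, G = 1 + emb e * serY p * G) ∧
  (∀ (e : PowerSeries ℤ) (G E R' : Ser) (N : ℕ), G = 1 + emb e * serY p * G →
    R' = 1 + serY p + serY p * E * R' → X ^ N ∣ E - emb e → X ^ N ∣ R' - (1 + serY p) * G) ∧
  (∀ (e : PowerSeries ℤ) (G E Q : Ser) (N : ℕ), G = 1 + emb e * serY p * G →
    Q = serY p + serY p * E * Q → X ^ N ∣ E - emb e → X ^ N ∣ Q - serY p * G)

/-! ## IV. The comparison -/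

/-- **ECO** [120], from PSR, ROC, LMZ, LSF, PLZ, MZF, GEX. Induction: for `j ≤ N + 2` `X^j ∣ E - emb e`. From `Sys` and
`1 + E + Q (1+E)² = (1+E) R'`: `E = X² (lam ((1+E) R') - 1)`, and `emb e = X² (emb ((1+e) M(e)) - 1)`. If `X^j ∣ E - emb e`,
`j ≤ N`, then with `F = (1+E) R'`, `F₀ = emb(1+e) (1+Y) G`: `X^j ∣ F - F₀` (GEX), `X^N ∣ lam F - emb (psiL F)` (LSF, ROC),
`X^j ∣ psiL F - psiL F₀`, `psiL F₀ = (1+e) M(e)` (PLZ (2), MZF). So `X^{j+2} ∣ E - emb e`. -/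
def SpecECO : Prop := ∀ (p m : ℕ) (Q E H V U : Ser), Dat p m Q E H V U → ∀ (N : ℕ) (e : PowerSeries ℤ),
  2 * N ≤ p * (m - 1) + 2 → e + X ^ 2 = X ^ 2 * ((1 + e) * Mz p e) → X ^ (N + 2) ∣ E - emb e

/-- **HCO** [120], from ECO, ROC, LSF, PLZ, MZF, GEX, IVZ, PSR. Let `g = Gz p e`, `h = g - 1 - e = X M(e) g`
(`(1 - X M) g = 1 + e`). Induction on `j ≤ N + 1`: `X^j ∣ H - emb h`. `H = X lam (R' (1+E+H))`. If `X^j ∣ H - emb h`, `j ≤ N`:
`R' (1+E+H) ≡ (1+Y) G emb g` modulo `X^j`, so as in ECO `lam (..) ≡ emb (g M(e))` modulo `X^j`, `H ≡ emb (X g M)` modulo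
`X^{j+1}`. -/
def SpecHCO : Prop := ∀ (p m : ℕ) (Q E H V U : Ser), Dat p m Q E H V U → ∀ (N : ℕ) (e : PowerSeries ℤ),
  2 * N ≤ p * (m - 1) + 2 → e + X ^ 2 = X ^ 2 * ((1 + e) * Mz p e) →
  X ^ (N + 1) ∣ H - emb (Gz p e - 1 - e)

/-- **FCO** [120], from ECO, HCO, ROC, PSF, PLZ, MZF, GEX, PSR. With `F = 1 + E + 2 H + Q (1+E+H)²`: modulo `X^N`
`F ≡ emb (2 g - 1 - e) + emb (g²) (Y G)`, so `psiL F ≡ (2 g - 1 - e) ℓ + g² N(e)`, and `psi F ≡ D psiL F` (PSF). -/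
def SpecFCO : Prop := ∀ (p m : ℕ) (Q E H V U : Ser), Dat p m Q E H V U → ∀ (N : ℕ) (e : PowerSeries ℤ),
  2 * N ≤ p * (m - 1) + 2 → e + X ^ 2 = X ^ 2 * ((1 + e) * Mz p e) →
  X ^ N ∣ psi p m (1 + E + 2 * H + Q * (1 + E + H) ^ 2) - Sz p e

/-- **ALG** [150], from IVZ. `S` is algebraic over `ℤ[X]`. (a) `e` is: with `D(Y) = (1 - X^p) ∏_{t ≤ p-1} (1 - Y c_t)`, a
polynomial in `Y` over `ℤ[X]`, and `Num(Y)` the polynomial with `M(e) D(e) = Num(e)`, `e` is a root of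
`P(Y) = (Y + X²) D(Y) - X² (1 + Y) Num(Y)`, which is not `0` because for `X = 0` it is `Y` (all `c_t` are divisible by `X`).
(b) the elements of `ℤ⟦X⟧` algebraic over `ℤ[X]` form a subring containing `X`; if `f` is algebraic, with constant
coefficient `1`, then `iv f` is algebraic (in the fraction field: `IsAlgebraic.inv`; `isAlgebraic_algebraMap_iff`).
So all of `c_t, ℓ, u_t, W, M, N, g, S` are algebraic. -/
def SpecALG : Prop := ∀ (p : ℕ) (e : PowerSeries ℤ), 2 ≤ p → e + X ^ 2 = X ^ 2 * ((1 + e) * Mz p e) →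
  IsAlgebraic (Polynomial ℤ) (Sz p e)

/-- **CFI** [80], from MainStatement, UVX, EEX, FCO, ALG. For `2 n ≤ p (m-1)` take `N = n + 1`. `Q, E, H` with `Sys` and
the formula for `sphere` are given by `MainStatement` (`main` in `MP_ba1bba_al/BIJx.lean`), `V`, `U` by UVX (see
`AS/GFI.lean`, `specASM`, first lines), so `Dat`. -/
def SpecCFI : Prop := MainLC

end Pool.Agent.Lib.MPba1bba.LC
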